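import Pool.Agent.Q137.YT.Pos

/-!
# The classes of glued boundary points
-/

set_option autoImplicit false

namespace Q137.YT

open Pool.Agent.H586R2.AF Real

variable {P : List (ℝ × ℝ)}

theorem fold_symm {p q : ℝ} {x y : Bd P} (h : Fold P p q x y) : Fold P p q y x := by
  obtain ⟨t, u, h1, h2, h3, h4, h5⟩ := h
  exact ⟨u, t, h2, h1, by linarith, h5, h4⟩

theorem fold_shift' {p q : ℝ} (z : ℤ) {x y : Bd P}
    (h : Fold P p q x y) : Fold P (p + z * per P) (q + z * per P) x y := by
  obtain ⟨t, u, h1, h2, h3, h4, h5⟩ := h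
  refine ⟨t + z * per P, u + z * per P, by linarith, by linarith, by linarith, ?_, ?_⟩
  · rw [coe_add_mul, h4]
  · rw [coe_add_mul, h5]

theorem fold_shift {p q : ℝ} (z : ℤ) {x y : Bd P} :
    Fold P (p + z * per P) (q + z * per P) x y ↔ Fold P p q x y := by
  refine ⟨fun h => ?_, fold_shift' z⟩
  have := fold_shift' (-z) h
  push_cast at this
  have e1 : p + z * per P + -(z : ℝ) * per P = p := by ring
  have e2 : q + z * per P + -(z : ℝ) * per P = q := by ring
  rw [e1, e2] at this
  exact this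

/-- the gluing with the arcs renamed -/
noncomputable def rot (G : Y P) : Y P := ⟨G.b, G.c, G.a + per P, G.hbc, G.hca, by linarith [G.hab]⟩

/-- the gluing with the three positions shifted by a multiple of the perimeter -/
noncomputable def shift (G : Y P) (z : ℤ) : Y P :=
  ⟨G.a + z * per P, G.b + z * per P, G.c + z * per P, by linarith [G.hab], by linarith [G.hbc],
    by linarith [G.hca]⟩

theorem glued_rot (G : Y P) : (rot G).Glued = G.Glued := by
  funext x y
  apply propext
  have h := @fold_shift P G.a G.b 1 x y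
  simp only [Int.cast_one, one_mul] at h
  unfold Y.Glued rot
  simp only
  rw [h]
  tauto

theorem glued_shift (G : Y P) (z : ℤ) : (shift G z).Glued = G.Glued := by
  funext x y
  apply propext
  unfold Y.Glued shift
  simp only
  have e : G.a + z * per P + per P = (G.a + per P) + z * per P := by ring
  rw [e, fold_shift, fold_shift, fold_shift]

theorem cls_congr {G G' : Y P} (h : G.Glued = G'.Glued) (x : Bd P) : G.cls x = G'.cls x := by
  unfold Y.cls
  rw [h]

theorem valid_congr {G G' : Y P} (h : G.Glued = G'.Glued) : G.Valid ↔ G'.Valid := by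
  unfold Y.Valid
  simp only [cls_congr h]

theorem isNode_congr {G G' : Y P} (h : G.Glued = G'.Glued) : G.IsNode = G'.IsNode := by
  funext A
  unfold Y.IsNode
  simp only [cls_congr h]

/-- class, for a relation -/
def clsR (R : Bd P → Bd P → Prop) (x : Bd P) : Set (Bd P) := {y | R x y}

/-- node, for a relation -/
def IsNodeR (R : Bd P → Bd P → Prop) (A : Set (Bd P)) : Prop :=
  (∃ x, A = clsR R x) ∧ ((∃ k, k < P.length ∧ vx P k ∈ A) ∨ A.ncard ≠ 2)

/-- adjacency, for a relation -/
def AdjR (R : Bd P → Bd P → Prop) (A B : Set (Bd P)) : Prop :=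
  ∃ t u : ℝ, t < u ∧ (t : Bd P) ∈ A ∧ (u : Bd P) ∈ B ∧
    ∀ w : ℝ, t < w → w < u → ¬ IsNodeR R (clsR R (w : Bd P))

/-- same type, for relations -/
def SameR (R R' : Bd P → Bd P → Prop) : Prop :=
  ∃ e : {A // IsNodeR R A} ≃ {A // IsNodeR R' A},
    (∀ A B : {A // IsNodeR R A}, AdjR R A B ↔ AdjR R' (e A) (e B)) ∧
    ∀ A : {A // IsNodeR R A},
      (∀ k, k < P.length → (vx P k ∈ (A : Set (Bd P)) ↔ vx P k ∈ (e A : Set (Bd P)))) ∧
      ∀ k, k < P.length →
        (((A : Set (Bd P)) ∩ edge P k).Nonempty ↔ ((e A : Set (Bd P)) ∩ edge P k).Nonempty)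

theorem sameType_iff (G G' : Y P) : SameType G G' ↔ SameR G.Glued G'.Glued := Iff.rfl

theorem sameType_congr {G G' H H' : Y P} (h1 : G.Glued = H.Glued) (h2 : G'.Glued = H'.Glued)
    (h : SameType H H') : SameType G G' := by
  rw [sameType_iff] at h ⊢
  rw [h1, h2]
  exact h

theorem cls_arc (hP : IsPolygon P) (G : Y P) {t : ℝ} (h1 : G.a < t) (h2 : t < G.b) :
    G.cls (t : Bd P) = {(t : Bd P), ((G.a + G.b - t : ℝ) : Bd P)} := by
  have hab := G.hab
  have hbc := G.hbc
  have hca := G.hca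
  ext y
  simp only [Y.cls, Set.mem_ofPred_eq, Set.mem_insert_iff, Set.mem_singleton_iff, Y.Glued]
  constructor
  · rintro (h | h | h | h)
    · exact Or.inl h.symm
    · obtain ⟨t', u', e1, e2, e3, e4, e5⟩ := h
      have := coe_inj hP e4 (by linarith) (by linarith)
      right
      rw [← e5, show u' = G.a + G.b - t by linarith]
    · obtain ⟨t', u', e1, e2, e3, e4, e5⟩ := h
      have := coe_inj hP e4 (by linarith) (by linarith)
      exfalso; linarith
    · obtain ⟨t', u', e1, e2, e3, e4, e5⟩ := h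
      have := coe_inj hP e4 (by linarith) (by linarith)
      exfalso; linarith
  · rintro (h | h)
    · exact Or.inl h.symm
    · right; left
      exact ⟨t, G.a + G.b - t, h1.le, by linarith, by ring, rfl, h.symm⟩

theorem cls_arc2 (hP : IsPolygon P) (G : Y P) {t : ℝ} (h1 : G.b < t) (h2 : t < G.c) :
    G.cls (t : Bd P) = {(t : Bd P), ((G.b + G.c - t : ℝ) : Bd P)} := by
  rw [← cls_congr (glued_rot G)]
  exact cls_arc hP (rot G) h1 h2

theorem cls_arc3 (hP : IsPolygon P) (G : Y P) {t : ℝ} (h1 : G.c < t) (h2 : t < G.a + per P) :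
    G.cls (t : Bd P) = {(t : Bd P), ((G.c + (G.a + per P) - t : ℝ) : Bd P)} := by
  rw [← cls_congr (glued_rot G), ← cls_congr (glued_rot (rot G))]
  exact cls_arc hP (rot (rot G)) h1 h2

theorem cls_a (hP : IsPolygon P) (G : Y P) :
    G.cls (G.a : Bd P) = {(G.a : Bd P), (G.b : Bd P), (G.c : Bd P)} := by
  have hab := G.hab
  have hbc := G.hbc
  have hca := G.hca
  ext y
  simp only [Y.cls, Set.mem_ofPred_eq, Set.mem_insert_iff, Set.mem_singleton_iff, Y.Glued]
  constructor
  · rintro (h | h | h | h)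
    · exact Or.inl h.symm
    · obtain ⟨t', u', e1, e2, e3, e4, e5⟩ := h
      have := coe_inj hP e4 (by linarith) (by linarith)
      right; left
      rw [← e5, show u' = G.b by linarith]
    · obtain ⟨t', u', e1, e2, e3, e4, e5⟩ := h
      have := coe_inj hP e4 (by linarith) (by linarith)
      exfalso; linarith
    · obtain ⟨t', u', e1, e2, e3, e4, e5⟩ := h
      rw [← coe_add_per G.a] at e4
      have := coe_inj hP e4 (by linarith) (by linarith)
      right; right
      rw [← e5, show u' = G.c by linarith]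
  · rintro (h | h | h)
    · exact Or.inl h.symm
    · right; left
      exact ⟨G.a, G.b, le_refl _, hab.le, rfl, rfl, h.symm⟩
    · right; right; right
      exact ⟨G.a + per P, G.c, by linarith, le_refl _, by ring, coe_add_per _, h.symm⟩

theorem cls_b (hP : IsPolygon P) (G : Y P) :
    G.cls (G.b : Bd P) = {(G.a : Bd P), (G.b : Bd P), (G.c : Bd P)} := by
  rw [← cls_congr (glued_rot G)]
  have h := cls_a hP (rot G)
  have e : (((rot G).c : ℝ) : Bd P) = (G.a : Bd P) := coe_add_per _
  rw [e] at h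
  rw [show ((G.b : ℝ) : Bd P) = ((rot G).a : Bd P) from rfl, h]
  show ({(G.b : Bd P), (G.c : Bd P), (G.a : Bd P)} : Set (Bd P)) = _
  ext x
  simp only [Set.mem_insert_iff, Set.mem_singleton_iff]
  tauto

theorem cls_c (hP : IsPolygon P) (G : Y P) :
    G.cls (G.c : Bd P) = {(G.a : Bd P), (G.b : Bd P), (G.c : Bd P)} := by
  rw [← cls_congr (glued_rot G)]
  have h := cls_b hP (rot G)
  have e : (((rot G).c : ℝ) : Bd P) = (G.a : Bd P) := coe_add_per _
  rw [e] at h
  rw [show ((G.c : ℝ) : Bd P) = ((rot G).b : Bd P) from rfl, h]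
  show ({(G.b : Bd P), (G.c : Bd P), (G.a : Bd P)} : Set (Bd P)) = _
  ext x
  simp only [Set.mem_insert_iff, Set.mem_singleton_iff]
  tauto

theorem self_mem (G : Y P) (x : Bd P) : x ∈ G.cls x := Or.inl rfl

theorem cls_eq_aux (hP : IsPolygon P) (G : Y P) {t : ℝ} (h1 : G.a ≤ t) (h2 : t < G.b)
    {y : Bd P} (h : y ∈ G.cls (t : Bd P)) : G.cls y = G.cls (t : Bd P) := by
  rcases h1.lt_or_eq with h1 | h1
  · rw [cls_arc hP G h1 h2] at h ⊢
    rcases h with rfl | rfl
    · exact cls_arc hP G h1 h2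
    · have hab := G.hab
      rw [cls_arc hP G (by linarith) (by linarith),
        show G.a + G.b - (G.a + G.b - t) = t by ring, Set.pair_comm]
  · rw [← h1, cls_a hP G] at h ⊢
    rcases h with rfl | rfl | rfl
    · exact cls_a hP G
    · exact cls_b hP G
    · exact cls_c hP G

/-- glued points have the same class -/
theorem cls_eq (hP : IsPolygon P) (G : Y P) {x y : Bd P} (h : y ∈ G.cls x) :
    G.cls y = G.cls x := by
  obtain ⟨t, h1, h2, rfl⟩ := exists_lift hP G.a x
  rcases lt_or_ge t G.b with h3 | h3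
  · exact cls_eq_aux hP G h1 h3 h
  rcases lt_or_ge t G.c with h4 | h4
  · have e := cls_congr (glued_rot G)
    rw [← e] at h
    rw [← e, ← e]
    exact cls_eq_aux hP (rot G) h3 h4 h
  · have e := cls_congr ((glued_rot (rot G)).trans (glued_rot G))
    rw [← e] at h
    rw [← e, ← e]
    exact cls_eq_aux hP (rot (rot G)) h4 h2 h

theorem glued_symm (hP : IsPolygon P) (G : Y P) {x y : Bd P} (h : G.Glued x y) :
    G.Glued y x := by
  have h1 : G.cls y = G.cls x := cls_eq hP G h
  have h2 : x ∈ G.cls x := self_mem G x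
  rw [← h1] at h2
  exact h2

/-- node of the class of `t` -/
def NP (G : Y P) (t : ℝ) : Prop := G.IsNode (G.cls (t : Bd P))

theorem np_pair (hP : IsPolygon P) (G : Y P) {t m : ℝ} (h1 : t < m + per P) (h2 : m < t + per P)
    (h : G.cls (t : Bd P) = {(t : Bd P), (m : Bd P)}) :
    NP G t ↔ V P t ∨ V P m ∨ t = m := by
  unfold NP Y.IsNode
  rw [h]
  constructor
  · rintro ⟨_, ⟨k, hk, h3⟩ | h3⟩
    · rcases h3 with h3 | h3
      · exact Or.inl ((V_iff hP t).mp ⟨k, hk, h3⟩)
      · exact Or.inr (Or.inl ((V_iff hP m).mp ⟨k, hk, h3⟩))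
    · right; right
      by_contra h4
      apply h3
      apply Set.ncard_pair
      intro h5
      exact h4 (coe_inj hP h5 h1 h2)
  · intro h3
    refine ⟨⟨_, h.symm⟩, ?_⟩
    rcases h3 with h3 | h3 | h3
    · obtain ⟨k, hk, e⟩ := (V_iff hP t).mpr h3
      exact Or.inl ⟨k, hk, Or.inl e⟩
    · obtain ⟨k, hk, e⟩ := (V_iff hP m).mpr h3
      exact Or.inl ⟨k, hk, Or.inr e⟩
    · right
      rw [h3, Set.pair_eq_singleton, Set.ncard_singleton]
      norm_num

theorem ne_abc (hP : IsPolygon P) (G : Y P) :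
    (G.a : Bd P) ≠ (G.b : Bd P) ∧ (G.a : Bd P) ≠ (G.c : Bd P) ∧ (G.b : Bd P) ≠ (G.c : Bd P) := by
  have hab := G.hab
  have hbc := G.hbc
  have hca := G.hca
  refine ⟨fun h => ?_, fun h => ?_, fun h => ?_⟩
  · have := coe_inj hP h (by linarith) (by linarith); linarith
  · have := coe_inj hP h (by linarith) (by linarith); linarith
  · have := coe_inj hP h (by linarith) (by linarith); linarith

theorem ncard_abc (hP : IsPolygon P) (G : Y P) :
    ({(G.a : Bd P), (G.b : Bd P), (G.c : Bd P)} : Set (Bd P)).ncard = 3 := by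
  obtain ⟨h1, h2, h3⟩ := ne_abc hP G
  exact Set.ncard_eq_three.mpr ⟨_, _, _, h1, h2, h3, rfl⟩

theorem np_a (hP : IsPolygon P) (G : Y P) : NP G G.a := by
  refine ⟨⟨_, rfl⟩, Or.inr ?_⟩
  rw [cls_a hP, ncard_abc hP]; norm_num

theorem np_b (hP : IsPolygon P) (G : Y P) : NP G G.b := by
  refine ⟨⟨_, rfl⟩, Or.inr ?_⟩
  rw [cls_b hP, ncard_abc hP]; norm_num

theorem np_c (hP : IsPolygon P) (G : Y P) : NP G G.c := by
  refine ⟨⟨_, rfl⟩, Or.inr ?_⟩
  rw [cls_c hP, ncard_abc hP]; norm_num

theorem np_V (hP : IsPolygon P) (G : Y P) {t : ℝ} (h : V P t) : NP G t := by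
  obtain ⟨k, hk, e⟩ := (V_iff hP t).mpr h
  exact ⟨⟨_, rfl⟩, Or.inl ⟨k, hk, by rw [e]; exact self_mem _ _⟩⟩

theorem np_shift (G : Y P) (t : ℝ) (z : ℤ) : NP G (t + z * per P) ↔ NP G t := by
  unfold NP
  rw [coe_add_mul]

end Q137.YT
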