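import Pool.Agent.H586R2.AF.Geo

/-!
# Three-leaf gluing trees of a simple polygon

Simple polygons (`IsPolygon`), their vertices (`vtx`), interior angles (`intAngle`) and arc
length positions (`spos`) are those of `Pool.Agent.H586R2.AF.Geo`.
-/

set_option autoImplicit false

namespace Q137.YT

open Pool.Agent.H586R2.AF Real

/-- the perimeter of `P` -/
noncomputable def per (P : List (ℝ × ℝ)) : ℝ := spos P P.length

/-- the boundary of `P`, parametrised by arc length, measured from vertex `0`: the circle of
length `per P` -/
abbrev Bd (P : List (ℝ × ℝ)) : Type := AddCircle (per P)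

/-- vertex `k` (`k < P.length`) as a point of the boundary -/
noncomputable def vx (P : List (ℝ × ℝ)) (k : ℕ) : Bd P := ((spos P k : ℝ) : Bd P)

/-- the points in the interior of edge `k` (`k < P.length`), which joins vertex `k` to the next
vertex -/
def edge (P : List (ℝ × ℝ)) (k : ℕ) : Set (Bd P) :=
  (fun t : ℝ => (t : Bd P)) '' Set.Ioo (spos P k) (spos P (k + 1))

open Classical in
/-- the interior angle of `P` at a boundary point: `π` if the point is not a vertex -/
noncomputable def angle (P : List (ℝ × ℝ)) (x : Bd P) : ℝ :=
  if h : ∃ k, k < P.length ∧ vx P k = x then intAngle P h.choose else π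

/-- The boundary arc from `p` to `q` is folded at its midpoint: points of the arc at equal
distances from its two ends are glued. `Fold P p q x y` says that this glues `x` to `y`. -/
def Fold (P : List (ℝ × ℝ)) (p q : ℝ) (x y : Bd P) : Prop :=
  ∃ t u : ℝ, p ≤ t ∧ p ≤ u ∧ t + u = p + q ∧ (t : Bd P) = x ∧ (u : Bd P) = y

/-- A three-leaf gluing of the boundary. Its gluing tree has one node of degree `3`; the three
boundary points glued there are (the points at the positions) `a`, `b`, `c`. Each of the three
boundary arcs between them runs along one of the three arms of the tree from the node of degree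
`3` to the leaf and back, so it is folded at its midpoint. -/
structure Y (P : List (ℝ × ℝ)) where
  a : ℝ
  b : ℝ
  c : ℝ
  hab : a < b
  hbc : b < c
  hca : c < a + per P

variable {P : List (ℝ × ℝ)}

/-- two boundary points are glued -/
def Y.Glued (G : Y P) (x y : Bd P) : Prop :=
  x = y ∨ Fold P G.a G.b x y ∨ Fold P G.b G.c x y ∨ Fold P G.c (G.a + per P) x y

/-- the point of the gluing tree that is the image of the boundary point `x`, as the set of all
boundary points glued to `x` -/
def Y.cls (G : Y P) (x : Bd P) : Set (Bd P) := {y | G.Glued x y}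

/-- Alexandrov's condition: at every point the interior angles glued there add up to at most
`2π` (for the interior points of `P` there is nothing to check) -/
def Y.Valid (G : Y P) : Prop :=
  ∀ (x : Bd P) (s : Finset (Bd P)), (s : Set (Bd P)) ⊆ G.cls x → ∑ y ∈ s, angle P y ≤ 2 * π

/-- `A` is a node of the gluing tree: a vertex of `P` is glued to it, or its degree is not `2`
(the degree of a point of the tree is the number of boundary points glued there) -/
def Y.IsNode (G : Y P) (A : Set (Bd P)) : Prop :=
  (∃ x, A = G.cls x) ∧ ((∃ k, k < P.length ∧ vx P k ∈ A) ∨ A.ncard ≠ 2)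

/-- the nodes `A` and `B` are adjacent in the gluing tree: some boundary arc leads from a point
of `A` to a point of `B` and meets no node in between -/
def Y.Adj (G : Y P) (A B : Set (Bd P)) : Prop :=
  ∃ t u : ℝ, t < u ∧ (t : Bd P) ∈ A ∧ (u : Bd P) ∈ B ∧
    ∀ w : ℝ, t < w → w < u → ¬ G.IsNode (G.cls (w : Bd P))

/-- The gluing trees of `G` and `G'` have the same combinatorial type: there is a bijection
between their nodes that preserves adjacency and the labels (the label of a node consists of the
vertices of `P` glued there and of the edges of `P` with an interior point glued there). -/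
def SameType (G G' : Y P) : Prop :=
  ∃ e : {A // G.IsNode A} ≃ {A // G'.IsNode A},
    (∀ A B : {A // G.IsNode A}, G.Adj A B ↔ G'.Adj (e A) (e B)) ∧
    ∀ A : {A // G.IsNode A}, (∀ k, k < P.length → (vx P k ∈ (A : Set (Bd P)) ↔ vx P k ∈ (e A : Set (Bd P)))) ∧
      ∀ k, k < P.length →
        (((A : Set (Bd P)) ∩ edge P k).Nonempty ↔ ((e A : Set (Bd P)) ∩ edge P k).Nonempty)

/-- `maxTrees n`: the largest number of three-leaf gluings, no two of the same combinatorial
type, of a simple polygon with `n` vertices -/
noncomputable def maxTrees (n : ℕ) : ℕ∞ :=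
  ⨆ (P : List (ℝ × ℝ)) (_ : IsPolygon P) (_ : P.length = n) (S : Finset (Y P))
    (_ : ∀ G ∈ S, G.Valid) (_ : ∀ G ∈ S, ∀ G' ∈ S, G ≠ G' → ¬ SameType G G'), (S.card : ℕ∞)

end Q137.YT
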