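import Pool.Agent.Q137.YT.Cls

/-!
# Transport of the combinatorial type
-/

set_option autoImplicit false

namespace Q137.YT

open Pool.Agent.H586R2.AF Real

variable {P : List (ℝ × ℝ)}

/-- one half of an isomorphism of gluing trees -/
structure Half (G G' : Y P) (Φ Ψ : ℝ → ℝ) : Prop where
  a_eq : G'.a = G.a
  Va : V P G.a
  map : ∀ t, G.a ≤ t → t < G.a + per P → NP G t →
    G.a ≤ Φ t ∧ Φ t < G.a + per P ∧ NP G' (Φ t) ∧ Ψ (Φ t) = t
  mono : ∀ t u, G.a ≤ t → t < u → u < G.a + per P → NP G t → NP G u → Φ t < Φ u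
  glued : ∀ t u, G.a ≤ t → t < G.a + per P → NP G t → G.a ≤ u → u < G.a + per P → NP G u →
    G.Glued (t : Bd P) (u : Bd P) → G'.Glued (Φ t : Bd P) (Φ u : Bd P)
  fix : ∀ t, G.a ≤ t → t < G.a + per P → V P t → Φ t = t

/-- the map of nodes -/
def nm (G : Y P) (Φ : ℝ → ℝ) (A : Set (Bd P)) : Set (Bd P) :=
  {y | ∃ t : ℝ, G.a ≤ t ∧ t < G.a + per P ∧ (t : Bd P) ∈ A ∧ y = (Φ t : Bd P)}

theorem node_of_mem (hP : IsPolygon P) {G : Y P} {A : Set (Bd P)} (hA : G.IsNode A) {t : ℝ}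
    (h : (t : Bd P) ∈ A) : G.cls (t : Bd P) = A ∧ NP G t := by
  obtain ⟨⟨x, rfl⟩, h2⟩ := hA
  have h3 := cls_eq hP G h
  refine ⟨h3, ⟨_, rfl⟩, ?_⟩
  rw [h3]
  exact h2

theorem exists_rep (hP : IsPolygon P) {G : Y P} {A : Set (Bd P)} (hA : G.IsNode A) :
    ∃ t : ℝ, G.a ≤ t ∧ t < G.a + per P ∧ NP G t ∧ A = G.cls (t : Bd P) := by
  obtain ⟨x, hx⟩ := hA.1
  obtain ⟨t, h1, h2, rfl⟩ := exists_lift hP G.a x
  have h3 : (t : Bd P) ∈ A := by rw [hx]; exact self_mem _ _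
  obtain ⟨h4, h5⟩ := node_of_mem hP hA h3
  exact ⟨t, h1, h2, h5, h4.symm⟩

variable {G G' : Y P} {Φ Ψ : ℝ → ℝ}

theorem nm_cls (hP : IsPolygon P) (H : Half G G' Φ Ψ) (H' : Half G' G Ψ Φ) {t : ℝ}
    (h1 : G.a ≤ t) (h2 : t < G.a + per P) (h3 : NP G t) :
    nm G Φ (G.cls (t : Bd P)) = G'.cls (Φ t : Bd P) := by
  obtain ⟨m1, m2, m3, m4⟩ := H.map t h1 h2 h3
  ext y
  constructor
  · rintro ⟨u, u1, u2, u3, rfl⟩
    have u4 : NP G u := by
      have := cls_eq hP G u3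
      unfold NP; rw [this]; exact h3
    exact H.glued t u h1 h2 h3 u1 u2 u4 u3
  · intro hy
    obtain ⟨w, w1, w2, rfl⟩ := exists_lift hP G.a y
    have w3 : NP G' w := by
      have := cls_eq hP G' hy
      unfold NP; rw [this]; exact m3
    rw [← H.a_eq] at w1 w2
    obtain ⟨x1, x2, x3, x4⟩ := H'.map w w1 w2 w3
    rw [H.a_eq] at x1 x2
    rw [← H.a_eq] at m1 m2
    have h4 := H'.glued (Φ t) w m1 m2 m3 w1 w2 w3 hy
    rw [m4] at h4
    exact ⟨Ψ w, x1, x2, h4, by rw [x4]⟩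

theorem nm_node (hP : IsPolygon P) (H : Half G G' Φ Ψ) (H' : Half G' G Ψ Φ)
    {A : Set (Bd P)} (hA : G.IsNode A) : G'.IsNode (nm G Φ A) := by
  obtain ⟨t, h1, h2, h3, rfl⟩ := exists_rep hP hA
  rw [nm_cls hP H H' h1 h2 h3]
  exact (H.map t h1 h2 h3).2.2.1

theorem nm_nm (hP : IsPolygon P) (H : Half G G' Φ Ψ) (H' : Half G' G Ψ Φ)
    {A : Set (Bd P)} (hA : G.IsNode A) : nm G' Ψ (nm G Φ A) = A := by
  obtain ⟨t, h1, h2, h3, rfl⟩ := exists_rep hP hA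
  obtain ⟨m1, m2, m3, m4⟩ := H.map t h1 h2 h3
  rw [nm_cls hP H H' h1 h2 h3]
  rw [← H.a_eq] at m1 m2
  rw [nm_cls hP H' H m1 m2 m3, m4]

/-- shifting a real into the period -/
theorem exists_shift (hP : IsPolygon P) (a t : ℝ) :
    ∃ z : ℤ, a ≤ t - z * per P ∧ t - z * per P < a + per P := by
  obtain ⟨t0, h1, h2, h3⟩ := exists_lift hP a (t : Bd P)
  obtain ⟨z, hz⟩ := coe_eq.mp h3.symm
  exact ⟨z, by linarith, by linarith⟩

theorem coe_sub_mul (t : ℝ) (z : ℤ) : ((t - z * per P : ℝ) : Bd P) = (t : Bd P) :=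
  coe_eq.mpr ⟨-z, by push_cast; ring⟩

theorem adj_half (hP : IsPolygon P) (H : Half G G' Φ Ψ) (H' : Half G' G Ψ Φ)
    {A B : Set (Bd P)} (hA : G.IsNode A) (hB : G.IsNode B) (h : G.Adj A B) :
    G'.Adj (nm G Φ A) (nm G Φ B) := by
  obtain ⟨t, u, h1, h2, h3, h4⟩ := h
  obtain ⟨z, z1, z2⟩ := exists_shift hP G.a t
  have hpp := per_pos hP
  set t0 := t - z * per P with ht0
  set u0 := u - z * per P with hu0
  have e2 : (t0 : Bd P) ∈ A := by rw [ht0, coe_sub_mul]; exact h2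
  have e3 : (u0 : Bd P) ∈ B := by rw [hu0, coe_sub_mul]; exact h3
  have e4 : ∀ w, t0 < w → w < u0 → ¬ NP G w := by
    intro w w1 w2 w3
    exact h4 (w + z * per P) (by rw [ht0] at w1; linarith) (by rw [hu0] at w2; linarith)
      ((np_shift G w z).mpr w3)
  have nt : NP G t0 := (node_of_mem hP hA e2).2
  have nu : NP G u0 := (node_of_mem hP hB e3).2
  have e5 : t0 < u0 := by rw [ht0, hu0]; linarith
  have e6 : u0 ≤ G.a + per P := by
    by_contra h5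
    push Not at h5
    refine e4 (G.a + per P) z2 h5 ?_
    have := (np_shift G G.a 1).mpr (np_a hP G)
    simpa using this
  obtain ⟨m1, m2, m3, m4⟩ := H.map t0 z1 z2 nt
  have key : ∀ w, Φ t0 < w → w < G.a + per P → NP G' w →
      G.a ≤ Ψ w ∧ Ψ w < G.a + per P ∧ NP G (Ψ w) ∧ t0 < Ψ w := by
    intro w w1 w2 w3
    have w4 : G'.a ≤ w := by rw [H.a_eq]; linarith
    have w5 : w < G'.a + per P := by rw [H.a_eq]; exact w2
    obtain ⟨x1, x2, x3, x4⟩ := H'.map w w4 w5 w3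
    rw [H.a_eq] at x1 x2
    have x5 := H'.mono (Φ t0) w (by rw [H.a_eq]; exact m1) w1 w5 m3 w3
    rw [m4] at x5
    exact ⟨x1, x2, x3, x5⟩
  rcases e6.lt_or_eq with e7 | e7
  · refine ⟨Φ t0, Φ u0, H.mono t0 u0 z1 e5 e7 nt nu, ⟨t0, z1, z2, e2, rfl⟩,
      ⟨u0, by linarith, e7, e3, rfl⟩, ?_⟩
    intro w w1 w2 w3
    obtain ⟨n1, n2, n3, n4⟩ := H.map u0 (by linarith) e7 nu
    obtain ⟨x1, x2, x3, x4⟩ := key w w1 (by linarith) w3
    have x5 := H'.mono w (Φ u0) (by rw [H.a_eq]; linarith) w2 (by rw [H.a_eq]; exact n2) w3 n3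
    rw [n4] at x5
    exact e4 _ x4 x5 x3
  · refine ⟨Φ t0, G.a + per P, m2, ⟨t0, z1, z2, e2, rfl⟩, ⟨G.a, le_refl _, by linarith, ?_, ?_⟩, ?_⟩
    · rw [← coe_add_per G.a, ← e7]; exact e3
    · rw [H.fix G.a le_rfl (by linarith) H.Va, coe_add_per]
    · intro w w1 w2 w3
      obtain ⟨x1, x2, x3, x4⟩ := key w w1 w2 w3
      exact e4 _ x4 (by rw [e7]; exact x2) x3

theorem vx_half (hP : IsPolygon P) (H : Half G G' Φ Ψ) {A : Set (Bd P)} {k : ℕ}
    (hk : k < P.length) (h : vx P k ∈ A) : vx P k ∈ nm G Φ A := by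
  obtain ⟨v, v1, v2, v3⟩ := exists_lift hP G.a (vx P k)
  have v4 : V P v := (V_iff hP v).mp ⟨k, hk, v3.symm⟩
  exact ⟨v, v1, v2, by rw [v3]; exact h, by rw [H.fix v v1 v2 v4, v3]⟩

theorem edge_half (hP : IsPolygon P) (H : Half G G' Φ Ψ) {A : Set (Bd P)} (hA : G.IsNode A)
    {k : ℕ} (hk : k < P.length) (h : (A ∩ edge P k).Nonempty) :
    (nm G Φ A ∩ edge P k).Nonempty := by
  obtain ⟨x, hx, t, ⟨ht1, ht2⟩, rfl⟩ := h
  simp only at hx
  obtain ⟨z, z1, z2⟩ := exists_shift hP G.a t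
  set t0 := t - z * per P with ht0
  have e2 : (t0 : Bd P) ∈ A := by rw [ht0, coe_sub_mul]; exact hx
  have nt : NP G t0 := (node_of_mem hP hA e2).2
  obtain ⟨i, hi⟩ := H.Va
  have hs := s_mono hP
  set j : ℤ := k + (-z) * P.length with hj
  have s1 : s P j = spos P k - z * per P := by
    rw [hj, s_add_mul hP, s_nat hP hk.le]; push_cast; ring
  have s2 : s P (j + 1) = spos P (k + 1) - z * per P := by
    have e : j + 1 = ((k + 1 : ℕ) : ℤ) + (-z) * P.length := by rw [hj]; push_cast; ring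
    rw [e, s_add_mul hP, s_nat hP (by omega)]; push_cast; ring
  have f1 : s P j < t0 := by rw [s1, ht0]; linarith
  have f2 : t0 < s P (j + 1) := by rw [s2, ht0]; linarith
  have f3 : i ≤ j := by
    have : s P i < s P (j + 1) := by rw [hi]; linarith
    have := hs.lt_iff_lt.mp this
    omega
  have f4 : j + 1 ≤ i + P.length := by
    have : s P j < s P (i + P.length) := by rw [s_add hP, hi]; linarith
    have := hs.lt_iff_lt.mp this
    omega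
  have g1 : G.a ≤ s P j := by rw [← hi]; exact hs.monotone f3
  have g2 : s P (j + 1) ≤ G.a + per P := by rw [← hi, ← s_add hP]; exact hs.monotone f4
  obtain ⟨m1, m2, m3, m4⟩ := H.map t0 z1 z2 nt
  have a1 : s P j < Φ t0 := by
    have := H.mono (s P j) t0 g1 f1 z2 (np_V hP G ⟨j, rfl⟩) nt
    rwa [H.fix _ g1 (by linarith) ⟨j, rfl⟩] at this
  have a2 : Φ t0 < s P (j + 1) := by
    rcases g2.lt_or_eq with g3 | g3
    · have := H.mono t0 (s P (j + 1)) z1 f2 g3 nt (np_V hP G ⟨j + 1, rfl⟩)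
      rwa [H.fix _ (by linarith) g3 ⟨j + 1, rfl⟩] at this
    · rw [g3]; exact m2
  refine ⟨(Φ t0 : Bd P), ⟨t0, z1, z2, e2, rfl⟩, Φ t0 + z * per P, ⟨?_, ?_⟩, ?_⟩
  · rw [s1] at a1; linarith
  · rw [s2] at a2; linarith
  · exact coe_add_mul _ _

theorem transport (hP : IsPolygon P) (H : Half G G' Φ Ψ) (H' : Half G' G Ψ Φ) :
    SameType G G' := by
  refine ⟨⟨fun A => ⟨nm G Φ A, nm_node hP H H' A.2⟩, fun A => ⟨nm G' Ψ A, nm_node hP H' H A.2⟩,
    fun A => Subtype.ext (nm_nm hP H H' A.2), fun A => Subtype.ext (nm_nm hP H' H A.2)⟩, ?_, ?_⟩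
  · rintro ⟨A, hA⟩ ⟨B, hB⟩
    refine ⟨fun h => adj_half hP H H' hA hB h, fun h => ?_⟩
    have := adj_half hP H' H (nm_node hP H H' hA) (nm_node hP H H' hB) h
    rwa [nm_nm hP H H' hA, nm_nm hP H H' hB] at this
  · rintro ⟨A, hA⟩
    refine ⟨fun k hk => ⟨fun h => vx_half hP H hk h, fun h => ?_⟩,
      fun k hk => ⟨fun h => edge_half hP H hA hk h, fun h => ?_⟩⟩
    · have := vx_half hP H' (A := nm G Φ A) hk h
      rwa [nm_nm hP H H' hA] at this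
    · have := edge_half hP H' (nm_node hP H H' hA) hk h
      rwa [nm_nm hP H H' hA] at this

end Q137.YT
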