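import Pool.Agent.Q137.YT.Orient

/-!
# The convex polygon of the lower bound
-/

set_option autoImplicit false

namespace Q137.YT

open Pool.Agent.H586R2.AF Real

/-- edge lengths: one long edge and edges of lengths `1/2, 1/4, ...` -/
noncomputable def el (n i : ℕ) : ℝ := if i = 0 then (n : ℝ) + 1 else (1 / 2) ^ i

/-- edge directions -/
noncomputable def th (n i : ℕ) : ℝ := i * (π / n)

/-- edges -/
noncomputable def u (n i : ℕ) : ℂ := (el n i : ℂ) * Complex.exp ((th n i : ℂ) * Complex.I)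

/-- vertices -/
noncomputable def Vx (n k : ℕ) : ℂ := ∑ i ∈ Finset.range k, u n i

/-- the polygon -/
noncomputable def poly (n : ℕ) : List (ℝ × ℝ) :=
  (List.range n).map (fun k => ((Vx n k).re, (Vx n k).im))

theorem poly_length (n : ℕ) : (poly n).length = n := by simp [poly]

theorem vtx_poly {n : ℕ} (hn : 0 < n) (k : ℕ) : vtx (poly n) k = Vx n (k % n) := by
  unfold vtx
  rw [poly_length]
  have hk : k % n < n := Nat.mod_lt _ hn
  have : (poly n).getD (k % n) (0, 0) = ((Vx n (k % n)).re, (Vx n (k % n)).im) := by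
    rw [List.getD_eq_getElem _ _ (by rw [poly_length]; exact hk)]
    simp [poly]
  rw [this]

theorem el_pos (n i : ℕ) : 0 < el n i := by
  unfold el
  split_ifs
  · positivity
  · positivity

theorem u_re (n i : ℕ) : (u n i).re = el n i * cos (th n i) := by
  unfold u
  rw [Complex.re_ofReal_mul, Complex.exp_ofReal_mul_I_re]

theorem u_im (n i : ℕ) : (u n i).im = el n i * sin (th n i) := by
  unfold u
  rw [Complex.im_ofReal_mul, Complex.exp_ofReal_mul_I_im]

theorem cr_u (n i j : ℕ) : cr (u n i) (u n j) = el n i * el n j * sin (th n j - th n i) := by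
  unfold cr
  rw [u_re, u_re, u_im, u_im, sin_sub]; ring

theorem cr_sum (A B : Finset ℕ) (f : ℕ → ℂ) :
    cr (∑ i ∈ A, f i) (∑ j ∈ B, f j) = ∑ i ∈ A, ∑ j ∈ B, cr (f i) (f j) := by
  unfold cr
  simp only [Complex.re_sum, Complex.im_sum, Finset.sum_sub_distrib]
  rw [Finset.sum_mul_sum, Finset.sum_mul_sum]

theorem th_diff {n i j : ℕ} (hij : i < j) (hj : j < n) : 0 < sin (th n j - th n i) := by
  have hn : (0 : ℝ) < n := by
    have : 0 < n := by omega
    exact_mod_cast this
  have hpi := Real.pi_pos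
  have h0 : 0 < π / n := by positivity
  have e : th n j - th n i = ((j : ℝ) - i) * (π / n) := by unfold th; ring
  have h1 : (0 : ℝ) < (j : ℝ) - i := by
    have : (i : ℝ) < j := by exact_mod_cast hij
    linarith
  have h2 : (j : ℝ) - i < n := by
    have h3 : (j : ℝ) < n := by exact_mod_cast hj
    have h4 : (0 : ℝ) ≤ i := by positivity
    linarith
  rw [e]
  apply sin_pos_of_pos_of_lt_pi
  · positivity
  · have : ((j : ℝ) - i) * (π / n) < n * (π / n) := by
      exact mul_lt_mul_of_pos_right h2 h0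
    rwa [mul_div_cancel₀ _ hn.ne'] at this

theorem cr_V {n a b c : ℕ} (hab : a < b) (hbc : b < c) (hc : c < n) :
    0 < cr (Vx n b - Vx n a) (Vx n c - Vx n a) := by
  have e : cr (Vx n b - Vx n a) (Vx n c - Vx n a) = cr (Vx n b - Vx n a) (Vx n c - Vx n b) := by
    unfold cr; simp only [Complex.sub_re, Complex.sub_im]; ring
  rw [e]
  unfold Vx
  rw [← Finset.sum_Ico_eq_sub _ hab.le, ← Finset.sum_Ico_eq_sub _ hbc.le, cr_sum]
  apply Finset.sum_pos
  · intro i hi
    apply Finset.sum_pos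
    · intro j hj
      rw [Finset.mem_Ico] at hi hj
      rw [cr_u]
      exact mul_pos (mul_pos (el_pos _ _) (el_pos _ _)) (th_diff (by omega) (by omega))
    · exact Finset.nonempty_Ico.mpr hbc
  · exact Finset.nonempty_Ico.mpr hab

theorem cvx_poly {n : ℕ} (hn : 0 < n) : Cvx (poly n) := by
  intro a b c hab hbc hc
  rw [poly_length] at hc
  rw [vtx_poly hn, vtx_poly hn, vtx_poly hn, Nat.mod_eq_of_lt hc, Nat.mod_eq_of_lt (by omega),
    Nat.mod_eq_of_lt (by omega)]
  exact cr_V hab hbc hc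

/-! ### the angle at vertex `0` -/

/-- the angle at vertex `0` -/
noncomputable def del (n : ℕ) : ℝ := (Vx n (n - 1)).arg

theorem half_sum (m : ℕ) : ∑ i ∈ Finset.range m, ((1 : ℝ) / 2) ^ (i + 1) = 1 - (1 / 2) ^ m := by
  induction m with
  | zero => simp
  | succ m ih => rw [Finset.sum_range_succ, ih, pow_succ]; ring

theorem Vx_re {n : ℕ} (hn : 3 ≤ n) : (n : ℝ) < (Vx n (n - 1)).re := by
  obtain ⟨m, rfl⟩ : ∃ m, n = m + 2 := ⟨n - 2, by omega⟩
  rw [show m + 2 - 1 = m + 1 by omega]
  unfold Vx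
  rw [Finset.sum_range_succ', Complex.add_re, Complex.re_sum]
  have h0 : (u (m + 2) 0).re = (m : ℝ) + 3 := by
    rw [u_re]; simp [el, th]; ring
  have h1 : -∑ i ∈ Finset.range m, ((1 : ℝ) / 2) ^ (i + 1) ≤
      ∑ i ∈ Finset.range m, (u (m + 2) (i + 1)).re := by
    rw [← Finset.sum_neg_distrib]
    apply Finset.sum_le_sum
    intro i _
    rw [u_re]
    have e : el (m + 2) (i + 1) = (1 / 2) ^ (i + 1) := by simp [el]
    rw [e]
    have := neg_one_le_cos (th (m + 2) (i + 1))
    have h2 : (0 : ℝ) < (1 / 2) ^ (i + 1) := by positivity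
    nlinarith
  rw [half_sum] at h1
  have h3 : (0 : ℝ) < (1 / 2) ^ m := by positivity
  rw [h0]
  push_cast
  linarith

theorem Vx_im {n : ℕ} (hn : 3 ≤ n) : 0 < (Vx n (n - 1)).im ∧ (Vx n (n - 1)).im < 1 := by
  obtain ⟨m, rfl⟩ : ∃ m, n = m + 2 := ⟨n - 2, by omega⟩
  rw [show m + 2 - 1 = m + 1 by omega]
  unfold Vx
  rw [Finset.sum_range_succ', Complex.add_im, Complex.im_sum]
  have h0 : (u (m + 2) 0).im = 0 := by
    rw [u_im]; simp [th]
  have h3 : (0 : ℝ) < (1 / 2) ^ m := by positivity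
  have hs : ∀ i ∈ Finset.range m, 0 < sin (th (m + 2) (i + 1)) := by
    intro i hi
    rw [Finset.mem_range] at hi
    have := th_diff (n := m + 2) (i := 0) (j := i + 1) (by omega) (by omega)
    simpa [th] using this
  have he : ∀ i, el (m + 2) (i + 1) = (1 / 2) ^ (i + 1) := fun i => by simp [el]
  constructor
  · rw [h0, add_zero]
    apply Finset.sum_pos
    · intro i hi
      rw [u_im]
      exact mul_pos (el_pos _ _) (hs i hi)
    · exact Finset.nonempty_range_iff.mpr (by omega)
  · have h1 : ∑ i ∈ Finset.range m, (u (m + 2) (i + 1)).im ≤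
        ∑ i ∈ Finset.range m, ((1 : ℝ) / 2) ^ (i + 1) := by
      apply Finset.sum_le_sum
      intro i _
      rw [u_im, he]
      have := sin_le_one (th (m + 2) (i + 1))
      have h2 : (0 : ℝ) < (1 / 2) ^ (i + 1) := by positivity
      nlinarith
    rw [half_sum] at h1
    rw [h0]
    linarith

theorem del_pos {n : ℕ} (hn : 3 ≤ n) : 0 < del n := by
  unfold del
  obtain ⟨h1, -⟩ := Vx_im hn
  have h2 : 0 ≤ (Vx n (n - 1)).arg := Complex.arg_nonneg_iff.mpr h1.le
  rcases h2.lt_or_eq with h3 | h3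
  · exact h3
  · exact absurd (Complex.arg_eq_zero_iff.mp h3.symm).2 h1.ne'

theorem del_lt {n : ℕ} (hn : 3 ≤ n) : del n < π / n := by
  have h0 := del_pos hn
  have h1 := Vx_re hn
  obtain ⟨h2, h3⟩ := Vx_im hn
  have hn0 : (0 : ℝ) < n := by
    have : 0 < n := by omega
    exact_mod_cast this
  have h4 : |del n| < π / 2 := by
    unfold del
    exact Complex.abs_arg_lt_pi_div_two_iff.mpr (Or.inl (by linarith))
  rw [abs_of_pos h0] at h4
  have h5 := Real.lt_tan h0 h4
  have h6 : Real.tan (del n) = (Vx n (n - 1)).im / (Vx n (n - 1)).re := Complex.tan_arg _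
  rw [h6] at h5
  have h7 : (Vx n (n - 1)).im / (Vx n (n - 1)).re < 1 / n := by
    rw [div_lt_div_iff₀ (by linarith) hn0]
    nlinarith
  have h8 : (1 : ℝ) / n < π / n := by
    apply div_lt_div_of_pos_right _ hn0
    linarith [Real.pi_gt_three]
  linarith

/-! ### the interior angles -/

theorem arg_aux {r t : ℝ} (hr : 0 < r) (h1 : 0 ≤ t) (h2 : t ≤ π) :
    toIcoMod Real.two_pi_pos 0 (Complex.arg ((r : ℂ) * Complex.exp ((t : ℂ) * Complex.I))) = t := by
  have hpi := Real.pi_pos
  rw [Complex.exp_mul_I, Complex.arg_mul_cos_add_sin_mul_I hr ⟨by linarith, h2⟩]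
  rw [toIcoMod_eq_self]
  exact ⟨h1, by linarith⟩

theorem int_zero {n : ℕ} (hn : 3 ≤ n) : intAngle (poly n) 0 = del n := by
  unfold intAngle
  rw [vtx_poly (by omega), vtx_poly (by omega), vtx_poly (by omega), poly_length]
  rw [zero_add, zero_add, Nat.mod_eq_of_lt (show n - 1 < n by omega),
    Nat.mod_eq_of_lt (show 1 < n by omega), Nat.zero_mod]
  have e0 : Vx n 0 = 0 := by simp [Vx]
  have e1 : Vx n 1 = ((n + 1 : ℝ) : ℂ) := by simp [Vx, u, el, th]
  have hp : (0 : ℝ) < n + 1 := by positivity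
  rw [e0, e1, sub_zero, sub_zero, div_eq_inv_mul, ← Complex.ofReal_inv,
    Complex.arg_real_mul _ (by positivity)]
  show toIcoMod Real.two_pi_pos 0 (del n) = del n
  rw [toIcoMod_eq_self]
  have h1 := del_pos hn
  have h2 := del_lt hn
  have h3 : π / n ≤ π / 1 := by
    apply div_le_div_of_nonneg_left Real.pi_pos.le one_pos
    have : 1 ≤ n := by omega
    exact_mod_cast this
  have hpi := Real.pi_pos
  exact ⟨h1.le, by rw [div_one] at h3; linarith⟩

theorem int_mid {n k : ℕ} (hn : 3 ≤ n) (h1 : 1 ≤ k) (h2 : k + 1 < n) :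
    intAngle (poly n) k = π - π / n := by
  obtain ⟨j, rfl⟩ : ∃ j, k = j + 1 := ⟨k - 1, by omega⟩
  unfold intAngle
  rw [vtx_poly (by omega), vtx_poly (by omega), vtx_poly (by omega), poly_length]
  have e1 : (j + 1 + (n - 1)) % n = j := by
    rw [show j + 1 + (n - 1) = j + n by omega, Nat.add_mod_right, Nat.mod_eq_of_lt (by omega)]
  rw [e1, Nat.mod_eq_of_lt (show j + 1 + 1 < n by omega), Nat.mod_eq_of_lt (show j + 1 < n by omega)]
  have e2 : Vx n (j + 1 + 1) - Vx n (j + 1) = u n (j + 1) := by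
    unfold Vx; rw [Finset.sum_range_succ _ (j + 1)]; ring
  have e3 : Vx n j - Vx n (j + 1) = - u n j := by
    unfold Vx; rw [Finset.sum_range_succ _ j]; ring
  have p1 := el_pos n j
  have p2 := el_pos n (j + 1)
  have hn0 : (0 : ℝ) < n := by
    have : 0 < n := by omega
    exact_mod_cast this
  have hpi := Real.pi_pos
  have e4 : - u n j / u n (j + 1) = ((el n j / el n (j + 1) : ℝ) : ℂ) *
      Complex.exp (((π - π / n : ℝ) : ℂ) * Complex.I) := by
    have e5 : ((π - π / n : ℝ) : ℂ) * Complex.I = (π : ℂ) * Complex.I + (th n j : ℂ) * Complex.I -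
        (th n (j + 1) : ℂ) * Complex.I := by
      unfold th; push_cast; ring
    rw [e5, Complex.exp_sub, Complex.exp_add, Complex.exp_pi_mul_I]
    unfold u
    have h3 := Complex.exp_ne_zero ((th n (j + 1) : ℂ) * Complex.I)
    have h4 : (el n (j + 1) : ℂ) ≠ 0 := by exact_mod_cast p2.ne'
    push_cast
    field_simp
  rw [e2, e3, e4]
  have h3 : π / n ≤ π / 1 := by
    apply div_le_div_of_nonneg_left Real.pi_pos.le one_pos
    have : 1 ≤ n := by omega
    exact_mod_cast this
  rw [div_one] at h3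
  have h4 : 0 < π / n := by positivity
  exact arg_aux (div_pos p1 p2) (by linarith) (by linarith)

theorem int_last {n : ℕ} (hn : 3 ≤ n) :
    intAngle (poly n) (n - 1) = th n (n - 2) - del n := by
  obtain ⟨j, rfl⟩ : ∃ j, n = j + 2 := ⟨n - 2, by omega⟩
  rw [show j + 2 - 1 = j + 1 by omega, show j + 2 - 2 = j by omega]
  unfold intAngle
  rw [vtx_poly (by omega), vtx_poly (by omega), vtx_poly (by omega), poly_length]
  have e1 : (j + 1 + (j + 2 - 1)) % (j + 2) = j := by
    rw [show j + 1 + (j + 2 - 1) = j + (j + 2) by omega, Nat.add_mod_right,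
      Nat.mod_eq_of_lt (by omega)]
  rw [e1, show j + 1 + 1 = j + 2 by omega, Nat.mod_self, Nat.mod_eq_of_lt (show j + 1 < j + 2 by omega)]
  have e0 : Vx (j + 2) 0 = 0 := by simp [Vx]
  have e3 : Vx (j + 2) j - Vx (j + 2) (j + 1) = - u (j + 2) j := by
    unfold Vx; rw [Finset.sum_range_succ _ j]; ring
  set v := Vx (j + 2) (j + 1) with hv
  have hd : del (j + 2) = v.arg := rfl
  have hre : (0 : ℝ) < v.re := by
    have := Vx_re hn
    rw [show j + 2 - 1 = j + 1 by omega] at this
    have h2 : (0 : ℝ) ≤ ((j + 2 : ℕ) : ℝ) := by positivity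
    linarith
  have hv0 : v ≠ 0 := by
    intro h; rw [h] at hre; simp at hre
  have hnv : 0 < ‖v‖ := norm_pos_iff.mpr hv0
  have p1 := el_pos (j + 2) j
  have e4 : - u (j + 2) j / (0 - v) = ((el (j + 2) j / ‖v‖ : ℝ) : ℂ) *
      Complex.exp (((th (j + 2) j - del (j + 2) : ℝ) : ℂ) * Complex.I) := by
    have h3 := Complex.exp_ne_zero ((v.arg : ℂ) * Complex.I)
    have h4 : (‖v‖ : ℂ) ≠ 0 := by exact_mod_cast hnv.ne'
    rw [zero_sub, neg_div_neg_eq, hd]
    nth_rewrite 1 [← Complex.norm_mul_exp_arg_mul_I v]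
    push_cast
    rw [sub_mul, Complex.exp_sub]
    unfold u
    field_simp
  rw [e0, e3, e4]
  have hd1 := del_pos hn
  have hd2 := del_lt hn
  have hn0 : (0 : ℝ) < ((j + 2 : ℕ) : ℝ) := by positivity
  have hpi := Real.pi_pos
  have h4 : 0 < π / ((j + 2 : ℕ) : ℝ) := by positivity
  have hj : (1 : ℝ) ≤ j := by
    have : 1 ≤ j := by omega
    exact_mod_cast this
  have hth : th (j + 2) j = π - 2 * (π / ((j + 2 : ℕ) : ℝ)) := by
    unfold th; push_cast; field_simp; ring
  have hth' : π / ((j + 2 : ℕ) : ℝ) ≤ th (j + 2) j := by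
    unfold th; nlinarith
  exact arg_aux (div_pos p1 hnv) (by linarith) (by linarith)

theorem sum_angles {n : ℕ} (hn : 3 ≤ n) :
    ∑ k ∈ Finset.range (poly n).length, (π - intAngle (poly n) k) = 2 * π := by
  rw [poly_length]
  obtain ⟨j, rfl⟩ : ∃ j, n = j + 2 := ⟨n - 2, by omega⟩
  rw [Finset.sum_range_succ', Finset.sum_range_succ, int_zero hn]
  have h1 := int_last hn
  rw [show j + 2 - 1 = j + 1 by omega, show j + 2 - 2 = j by omega] at h1
  rw [h1]
  have h2 : ∑ k ∈ Finset.range j, (π - intAngle (poly (j + 2)) (k + 1)) =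
      ∑ _k ∈ Finset.range j, (π / ((j + 2 : ℕ) : ℝ)) := by
    apply Finset.sum_congr rfl
    intro k hk
    rw [Finset.mem_range] at hk
    rw [int_mid hn (by omega) (by omega)]; ring
  rw [h2, Finset.sum_const, Finset.card_range, nsmul_eq_mul]
  unfold th
  ring

theorem isPolygon_poly {n : ℕ} (hn : 3 ≤ n) : IsPolygon (poly n) :=
  cvx_polygon (by rw [poly_length]; exact hn) (cvx_poly (by omega)) (sum_angles hn)

/-- all interior angles are at most `π - π / n`, except that the angle at vertex `0` is less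
than `π / n` -/
theorem int_le {n k : ℕ} (hn : 3 ≤ n) (hk : k < n) : intAngle (poly n) k ≤ π - π / n := by
  have hd1 := del_pos hn
  have hd2 := del_lt hn
  have hn0 : (0 : ℝ) < (n : ℝ) := by
    have : 0 < n := by omega
    exact_mod_cast this
  have hpi := Real.pi_pos
  have h4 : 0 < π / (n : ℝ) := by positivity
  have h5 : (n : ℝ) * (π / n) = π := by field_simp
  have hn3 : (3 : ℝ) ≤ n := by exact_mod_cast hn
  rcases Nat.eq_zero_or_pos k with rfl | h0
  · rw [int_zero hn]
    nlinarith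
  · rcases Nat.lt_or_ge (k + 1) n with h1 | h1
    · rw [int_mid hn h0 h1]
    · have : k = n - 1 := by omega
      rw [this, int_last hn]
      have : th n (n - 2) = π - 2 * (π / n) := by
        unfold th
        rw [Nat.cast_sub (by omega)]
        push_cast
        linarith
      linarith

/-! ### positions -/

theorem spos_poly {n k : ℕ} (hn : 3 ≤ n) (h1 : k + 1 < n) :
    spos (poly n) (k + 1) = n + 2 - (1 / 2) ^ k := by
  have e : ∀ l, l + 1 < n → ‖vtx (poly n) (l + 1) - vtx (poly n) l‖ = el n l := by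
    intro l hl
    rw [vtx_poly (by omega), vtx_poly (by omega), Nat.mod_eq_of_lt hl,
      Nat.mod_eq_of_lt (show l < n by omega)]
    have e2 : Vx n (l + 1) - Vx n l = u n l := by
      unfold Vx; rw [Finset.sum_range_succ _ l]; ring
    rw [e2]
    unfold u
    rw [norm_mul, Complex.norm_exp_ofReal_mul_I, mul_one, Complex.norm_real, norm_of_nonneg (el_pos n l).le]
  unfold spos
  rw [Finset.sum_congr rfl (fun l hl => e l (by rw [Finset.mem_range] at hl; omega)),
    Finset.sum_range_succ']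
  have : ∑ i ∈ Finset.range k, el n (i + 1) = ∑ i ∈ Finset.range k, ((1 : ℝ) / 2) ^ (i + 1) := by
    apply Finset.sum_congr rfl
    intro i _
    simp [el]
  rw [this, half_sum]
  simp [el]; ring

end Q137.YT
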