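import Pool.Agent.Q137.YT.Rep
import Pool.Agent.Q137.YT.Poly

/-!
# The lower bound
-/

set_option autoImplicit false

namespace Q137.YT

open Pool.Agent.H586R2.AF Real

theorem half_lt {a b : ℕ} (h : a < b) : 2 * ((1 : ℝ) / 2) ^ b ≤ (1 / 2) ^ a := by
  have h1 : ((1 : ℝ) / 2) ^ b ≤ (1 / 2) ^ (a + 1) :=
    pow_le_pow_of_le_one (by norm_num) (by norm_num) (by omega)
  rw [pow_succ] at h1
  linarith

theorem half_pos (a : ℕ) : (0 : ℝ) < (1 / 2) ^ a := by positivity

theorem ar1 {a b q k : ℕ} (h1 : a < b) (h2 : b < q) :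
    ((1 : ℝ) / 2) ^ a + (1 / 2) ^ b - (1 / 2) ^ q ≠ (1 / 2) ^ k := by
  intro h
  have p1 := half_lt h1
  have p2 := half_lt h2
  have p3 := half_pos q
  have p4 := half_pos b
  rcases Nat.lt_or_ge k a with h3 | h3
  · have p5 := half_lt h3
    linarith
  · have p5 : ((1 : ℝ) / 2) ^ k ≤ (1 / 2) ^ a :=
      pow_le_pow_of_le_one (by norm_num) (by norm_num) h3
    linarith

theorem ar2_aux {a b a' b' : ℕ} (_h1 : a < b) (h2 : a' < b')
    (h : ((1 : ℝ) / 2) ^ a + (1 / 2) ^ b = (1 / 2) ^ a' + (1 / 2) ^ b') : a' ≤ a := by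
  by_contra hc
  push Not at hc
  have p1 := half_lt hc
  have p2 := half_lt h2
  have p3 := half_pos b
  have p4 := half_pos b'
  linarith

theorem ar2 {a b a' b' : ℕ} (h1 : a < b) (h2 : a' < b')
    (h : ((1 : ℝ) / 2) ^ a + (1 / 2) ^ b = (1 / 2) ^ a' + (1 / 2) ^ b') : a = a' ∧ b = b' := by
  have e1 := ar2_aux h1 h2 h
  have e2 := ar2_aux h2 h1 h.symm
  have e : a = a' := by omega
  subst e
  refine ⟨rfl, ?_⟩
  have h3 : ((1 : ℝ) / 2) ^ b = (1 / 2) ^ b' := by linarith
  by_contra hne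
  rcases Nat.lt_or_gt_of_ne hne with h4 | h4
  · have := half_lt h4
    have := half_pos b'
    linarith
  · have := half_lt h4
    have := half_pos b
    linarith

variable {n : ℕ}

/-- the gluing given by three short-side vertices `a + 1 < b + 1 < q + 1` -/
def Tri (n : ℕ) (T : Finset ℕ) (G : Y (poly n)) : Prop :=
  ∃ a b q, a < b ∧ b < q ∧ q + 1 < n ∧ T = {a, b, q} ∧ G.a = 0 ∧
    G.b = n + 2 - ((1 / 2) ^ a + (1 / 2) ^ b - (1 / 2) ^ q) ∧ G.c = n + 2 - (1 / 2) ^ q

theorem sp (hn : 3 ≤ n) {k : ℕ} (h1 : k + 1 < n) :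
    s (poly n) ((k + 1 : ℕ) : ℤ) = n + 2 - (1 / 2) ^ k := by
  rw [s_nat (isPolygon_poly hn) (by rw [poly_length]; omega)]
  exact spos_poly hn h1

theorem sp0 (hn : 3 ≤ n) : s (poly n) 0 = 0 := by
  have := s_nat (isPolygon_poly hn) (k := 0) (by omega)
  rw [spos_zero] at this
  exact this

theorem vx0 : vx (poly n) 0 = ((0 : ℝ) : Bd (poly n)) := by
  unfold vx; rw [spos_zero]

theorem vxp (hn : 3 ≤ n) {k : ℕ} (h1 : k + 1 < n) :
    vx (poly n) (k + 1) = ((n + 2 - (1 / 2) ^ k : ℝ) : Bd (poly n)) := by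
  unfold vx; rw [spos_poly hn h1]

theorem per_gt (hn : 3 ≤ n) {k : ℕ} (h1 : k + 1 < n) :
    (n : ℝ) + 2 - (1 / 2) ^ k < per (poly n) := by
  rw [← spos_poly hn h1]
  exact spos_mono (isPolygon_poly hn) (by rw [poly_length]; exact h1)

theorem exists_tri (hn : 3 ≤ n) {T : Finset ℕ} (hT : T ∈ Finset.powersetCard 3 (Finset.range (n - 1))) :
    ∃ G : Y (poly n), Tri n T G := by
  rw [Finset.mem_powersetCard] at hT
  obtain ⟨h1, h2⟩ := hT
  set f := T.orderEmbOfFin h2 with hf
  have m2 : f 2 < n - 1 := by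
    have := h1 (T.orderEmbOfFin_mem h2 2)
    rwa [Finset.mem_range] at this
  have l1 : f 0 < f 1 := f.lt_iff_lt.mpr (by decide)
  have l2 : f 1 < f 2 := f.lt_iff_lt.mpr (by decide)
  have hset : T = {f 0, f 1, f 2} := by
    ext x
    have : x ∈ T ↔ x ∈ Set.range f := by
      rw [hf, Finset.range_orderEmbOfFin]; rfl
    rw [this]
    simp only [Set.mem_range, Fin.exists_fin_succ, Finset.mem_insert, Finset.mem_singleton]
    simp [eq_comm]
  have hq : f 2 + 1 < n := by omega
  have p1 := half_lt l1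
  have p2 := half_lt l2
  have p3 := half_pos (f 2)
  have p4 := half_pos (f 1)
  have p5 : ((1 : ℝ) / 2) ^ (f 0) ≤ 1 := pow_le_one₀ (by norm_num) (by norm_num)
  have hn3 : (3 : ℝ) ≤ n := by exact_mod_cast hn
  refine ⟨⟨0, n + 2 - ((1 / 2) ^ (f 0) + (1 / 2) ^ (f 1) - (1 / 2) ^ (f 2)), n + 2 - (1 / 2) ^ (f 2),
    by linarith, by linarith, by rw [zero_add]; exact per_gt hn hq⟩, f 0, f 1, f 2, l1, l2, hq, hset,
    rfl, rfl, rfl⟩

theorem ang_le (hn : 3 ≤ n) (x : Bd (poly n)) : angle (poly n) x ≤ π := by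
  have hP := isPolygon_poly hn
  unfold angle
  split_ifs with h
  · have h5 : h.choose < n := lt_of_lt_of_eq h.choose_spec.1 (poly_length n)
    have := int_le hn h5
    have hn0 : (0 : ℝ) < (n : ℝ) := by
      have : 0 < n := by omega
      exact_mod_cast this
    have h4 : 0 < π / (n : ℝ) := div_pos Real.pi_pos hn0
    linarith
  · exact le_refl _

theorem tri_valid (hn : 3 ≤ n) {T : Finset ℕ} {G : Y (poly n)} (h : Tri n T G) : G.Valid := by
  classical
  have hP := isPolygon_poly hn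
  obtain ⟨a, b, q, h1, h2, h3, -, ga, gb, gc⟩ := h
  have hpi := Real.pi_pos
  have pair : ∀ (t m : Bd (poly n)) (F : Finset (Bd (poly n))), (F : Set (Bd (poly n))) ⊆ {t, m} →
      ∑ y ∈ F, angle (poly n) y ≤ 2 * π := by
    intro t m F hF
    have e : F ⊆ {t, m} := by
      intro x hx
      have := hF hx
      simpa using this
    have c : F.card ≤ 2 := (Finset.card_le_card e).trans Finset.card_le_two
    have d : ∑ y ∈ F, angle (poly n) y ≤ F.card • π := Finset.sum_le_card_nsmul _ _ _ (fun x _ => ang_le hn x)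
    rw [nsmul_eq_mul] at d
    have c' : (F.card : ℝ) ≤ 2 := by exact_mod_cast c
    nlinarith
  have hj : angle (poly n) (G.a : Bd (poly n)) + (angle (poly n) (G.b : Bd (poly n)) +
      angle (poly n) (G.c : Bd (poly n))) ≤ 2 * π := by
    have e1 : angle (poly n) (G.a : Bd (poly n)) < π / n := by
      have := angle_V hP 0
      rw [sp0 hn] at this
      rw [ga, this]
      have e : al (poly n) 0 = intAngle (poly n) 0 := by unfold al; simp
      rw [e, int_zero hn]
      exact del_lt hn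
    have e2 := ang_le hn (G.b : Bd (poly n))
    have e3 : angle (poly n) (G.c : Bd (poly n)) ≤ π - π / n := by
      have := angle_V hP ((q + 1 : ℕ) : ℤ)
      rw [sp hn h3] at this
      rw [gc, this]
      unfold al
      rw [poly_length, Int.emod_eq_of_lt (by omega) (by omega), Int.toNat_natCast]
      exact int_le hn h3
    linarith
  intro x F hF
  have junc : (F : Set (Bd (poly n))) ⊆ {(G.a : Bd (poly n)), (G.b : Bd (poly n)), (G.c : Bd (poly n))} →
      ∑ y ∈ F, angle (poly n) y ≤ 2 * π := by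
    intro hF
    have e : F ⊆ {(G.a : Bd (poly n)), (G.b : Bd (poly n)), (G.c : Bd (poly n))} := by
      intro x hx
      have := hF hx
      simpa using this
    obtain ⟨n1, n2, n3⟩ := ne_abc hP G
    calc ∑ y ∈ F, angle (poly n) y ≤ ∑ y ∈ {(G.a : Bd (poly n)), (G.b : Bd (poly n)), (G.c : Bd (poly n))},
          angle (poly n) y :=
          Finset.sum_le_sum_of_subset_of_nonneg e (fun x _ _ => (angle_pos hP x).le)
      _ = _ := by rw [Finset.sum_insert (by simp [n1, n2]), Finset.sum_pair n3]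
      _ ≤ 2 * π := hj
  obtain ⟨t, t1, t2, rfl⟩ := exists_lift hP G.a x
  rcases t1.lt_or_eq with t1 | t1
  · rcases lt_trichotomy t G.b with t3 | t3 | t3
    · rw [cls_arc hP G t1 t3] at hF
      exact pair _ _ _ hF
    · rw [t3, cls_b hP] at hF
      exact junc hF
    · rcases lt_trichotomy t G.c with t4 | t4 | t4
      · rw [cls_arc2 hP G t3 t4] at hF
        exact pair _ _ _ hF
      · rw [t4, cls_c hP] at hF
        exact junc hF
      · rw [cls_arc3 hP G t4 t2] at hF
        exact pair _ _ _ hF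
  · rw [← t1, cls_a hP] at hF
    exact junc hF

/-- the bijection preserves which vertices are glued to each other -/
theorem same_glued {P : List (ℝ × ℝ)} (hP : IsPolygon P) {G G' : Y P} (h : SameType G G') {k l : ℕ}
    (hk : k < P.length) (hl : l < P.length) (hg : vx P l ∈ G.cls (vx P k)) :
    vx P l ∈ G'.cls (vx P k) := by
  obtain ⟨e, -, h2⟩ := h
  have hn : G.IsNode (G.cls (vx P k)) := ⟨⟨_, rfl⟩, Or.inl ⟨k, hk, self_mem _ _⟩⟩
  obtain ⟨h3, -⟩ := h2 ⟨_, hn⟩
  have h4 := (h3 k hk).mp (self_mem _ _)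
  have h5 := (h3 l hl).mp hg
  obtain ⟨⟨x, hx⟩, -⟩ := (e ⟨_, hn⟩).2
  rw [hx] at h4 h5
  rw [cls_eq hP G' h4]
  exact h5

theorem tri_inj (hn : 3 ≤ n) {T T' : Finset ℕ} {G G' : Y (poly n)} (h : Tri n T G) (h' : Tri n T' G')
    (hs : SameType G G') : T = T' := by
  have hP := isPolygon_poly hn
  obtain ⟨a, b, q, h1, h2, h3, hT, ga, gb, gc⟩ := h
  obtain ⟨a', b', q', h1', h2', h3', hT', ga', gb', gc'⟩ := h'
  have p1 := half_lt h1
  have p2 := half_lt h2
  have p3 := half_pos q
  have p4 := half_pos b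
  have p5 : ((1 : ℝ) / 2) ^ a ≤ 1 := pow_le_one₀ (by norm_num) (by norm_num)
  have p1' := half_lt h1'
  have p2' := half_lt h2'
  have p3' := half_pos q'
  have p4' := half_pos b'
  have p5' : ((1 : ℝ) / 2) ^ a' ≤ 1 := pow_le_one₀ (by norm_num) (by norm_num)
  have hn3 : (3 : ℝ) ≤ n := by exact_mod_cast hn
  have hper := per_gt hn h3
  have hper' := per_gt hn h3'
  have g1 := G'.hab
  have g2 := G'.hbc
  have g3 := G'.hca
  have hperb := per_gt hn (show b + 1 < n by omega)
  have hpera := per_gt hn (show a + 1 < n by omega)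
  -- the third junction vertex
  have hq : q = q' := by
    have k1 : vx (poly n) (q + 1) ∈ G.cls (vx (poly n) 0) := by
      rw [vx0, vxp hn h3, ← ga, cls_a hP, ← gc]
      exact Or.inr (Or.inr rfl)
    have k2 := same_glued hP hs (k := 0) (l := q + 1) (by rw [poly_length]; omega)
      (by rw [poly_length]; omega) k1
    rw [vx0, vxp hn h3, ← ga', cls_a hP, ga', gb', gc'] at k2
    rcases k2 with k2 | k2 | k2
    · have := coe_inj hP k2 (by linarith) (by linarith)
      exfalso; linarith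
    · have := coe_inj hP k2 (by linarith) (by linarith)
      exact absurd (show ((1 : ℝ) / 2) ^ a' + (1 / 2) ^ b' - (1 / 2) ^ q' = (1 / 2) ^ q by linarith)
        (ar1 h1' h2')
    · have k3 := coe_inj hP k2 (by linarith) (by linarith)
      by_contra hne
      rcases Nat.lt_or_gt_of_ne hne with h4 | h4
      · have := half_lt h4
        linarith
      · have := half_lt h4
        linarith
  subst hq
  have k1 : vx (poly n) (b + 1) ∈ G.cls (vx (poly n) (a + 1)) := by
    rw [vxp hn (by omega), vxp hn (by omega), cls_arc2 hP G (by rw [gb]; linarith) (by rw [gc]; linarith),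
      gb, gc]
    right
    show ((n + 2 - (1 / 2) ^ b : ℝ) : Bd (poly n)) = _
    congr 1
    ring
  have k2 := same_glued hP hs (k := a + 1) (l := b + 1) (by rw [poly_length]; omega)
      (by rw [poly_length]; omega) k1
  rw [vxp hn (by omega), vxp hn (by omega)] at k2
  have hne : ((n + 2 - (1 / 2) ^ b : ℝ) : Bd (poly n)) ≠ ((n + 2 - (1 / 2) ^ a : ℝ) : Bd (poly n)) := by
    intro hc
    have := coe_inj hP hc (by linarith) (by linarith)
    linarith
  rcases lt_trichotomy ((n : ℝ) + 2 - (1 / 2) ^ a) G'.b with k3 | k3 | k3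
  · rw [cls_arc hP G' (by rw [ga']; linarith) k3] at k2
    rcases k2 with k2 | k2
    · exact absurd k2 hne
    · rw [gb'] at k3
      have := coe_inj hP k2 (by rw [ga', gb']; linarith) (by rw [ga', gb']; linarith)
      rw [ga', gb'] at this
      exfalso; linarith
  · rw [gb'] at k3
    exact absurd (show ((1 : ℝ) / 2) ^ a' + (1 / 2) ^ b' - (1 / 2) ^ q = (1 / 2) ^ a by linarith)
        (ar1 h1' h2')
  · rw [cls_arc2 hP G' k3 (by rw [gc']; linarith)] at k2
    rcases k2 with k2 | k2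
    · exact absurd k2 hne
    · rw [gb'] at k3
      have := coe_inj hP k2 (by rw [gb', gc']; linarith) (by rw [gb', gc']; linarith)
      rw [gb', gc'] at this
      obtain ⟨e1, e2⟩ := ar2 h1 h1' (by linarith)
      rw [hT, hT', e1, e2]

/-- the lower bound: a convex polygon with `(n - 1).choose 3` types of three-leaf gluings -/
theorem lower' (hn : 3 ≤ n) : ∃ P : List (ℝ × ℝ), IsPolygon P ∧ P.length = n ∧
    (∀ k, k < n → intAngle P k < π) ∧ ∃ S : Finset (Y P), (∀ G ∈ S, G.Valid) ∧
      (∀ G ∈ S, ∀ G' ∈ S, G ≠ G' → ¬ SameType G G') ∧ S.card = (n - 1).choose 3 := by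
  classical
  have hP := isPolygon_poly hn
  have hex : ∀ T : Finset ℕ, ∃ G : Y (poly n), T ∈ Finset.powersetCard 3 (Finset.range (n - 1)) →
      Tri n T G := by
    intro T
    by_cases hT : T ∈ Finset.powersetCard 3 (Finset.range (n - 1))
    · obtain ⟨G, hG⟩ := exists_tri hn hT
      exact ⟨G, fun _ => hG⟩
    · have hp := per_pos hP
      exact ⟨⟨0, per (poly n) / 3, 2 * per (poly n) / 3, by linarith, by linarith, by linarith⟩,
        fun h => absurd h hT⟩
  choose f hf using hex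
  set D := Finset.powersetCard 3 (Finset.range (n - 1)) with hD
  have hinj : Set.InjOn f D := by
    intro T hT T' hT' he
    have h1 := hf T hT
    have h2 := hf T' hT'
    rw [← he] at h2
    exact tri_inj hn h1 h2 (SameType.refl _)
  have hcard : (D.image f).card = (n - 1).choose 3 := by
    rw [Finset.card_image_of_injOn hinj, hD, Finset.card_powersetCard, Finset.card_range]
  refine ⟨poly n, hP, poly_length n, ?_, D.image f, ?_, ?_, hcard⟩
  · intro k hk
    have h1 := int_le hn hk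
    have hn0 : (0 : ℝ) < (n : ℝ) := by
      have : 0 < n := by omega
      exact_mod_cast this
    have h4 : 0 < π / (n : ℝ) := div_pos Real.pi_pos hn0
    linarith
  · intro G hG
    obtain ⟨T, hT, rfl⟩ := Finset.mem_image.mp hG
    exact tri_valid hn (hf T hT)
  · intro G hG G' hG' hne hs
    obtain ⟨T, hT, rfl⟩ := Finset.mem_image.mp hG
    obtain ⟨T', hT', rfl⟩ := Finset.mem_image.mp hG'
    apply hne
    rw [tri_inj hn (hf T hT) (hf T' hT') hs]

/-- the lower bound for `maxTrees` -/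
theorem lower (hn : 3 ≤ n) : (((n - 1).choose 3 : ℕ) : ℕ∞) ≤ maxTrees n := by
  obtain ⟨P, h1, h2, -, S, h3, h4, h5⟩ := lower' hn
  rw [← h5]
  unfold maxTrees
  exact le_iSup_of_le P (le_iSup_of_le h1 (le_iSup_of_le h2
    (le_iSup_of_le S (le_iSup_of_le h3 (le_iSup_of_le h4 le_rfl)))))

end Q137.YT
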