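import Pool.Agent.Q137.YT.Sig
import Pool.Agent.Q137.YT.Iso

/-!
# Sliding the middle junction point inside a cell does not change the type
-/

set_option autoImplicit false

namespace Q137.YT

open Pool.Agent.H586R2.AF Real

variable {P : List (ℝ × ℝ)}

/-- the two gluings differ only in the middle junction point, which stays in one cell -/
structure MV (G G' : Y P) : Prop where
  a_eq : G'.a = G.a
  c_eq : G'.c = G.c
  Va : V P G.a
  Vc : V P G.c
  nb : ¬ V P G.b
  nb' : ¬ V P G'.b
  C1 : Cell P G.a G.c (G.a + G.b) (G.a + G'.b)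
  C2 : Cell P G.a G.c (G.b + G.c) (G'.b + G.c)

theorem MV.symm {G G' : Y P} (h : MV G G') : MV G' G := by
  refine ⟨h.a_eq.symm, h.c_eq.symm, ?_, ?_, h.nb', h.nb, ?_, ?_⟩
  · rw [h.a_eq]; exact h.Va
  · rw [h.c_eq]; exact h.Vc
  · rw [h.a_eq, h.c_eq]; exact h.C1.symm
  · rw [h.a_eq, h.c_eq]; exact h.C2.symm

/-- new positions of the node points -/
noncomputable def mv (G G' : Y P) (t : ℝ) : ℝ :=
  if t ≤ G.b then ph P (G.a + G.b) (G.a + G'.b) t
  else if t ≤ G.c then ph P (G.b + G.c) (G'.b + G.c) t else t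

theorem mv1 {G G' : Y P} {t : ℝ} (h : t ≤ G.b) :
    mv G G' t = ph P (G.a + G.b) (G.a + G'.b) t := by unfold mv; rw [if_pos h]

theorem mv2 {G G' : Y P} {t : ℝ} (h : G.b < t) (h' : t ≤ G.c) :
    mv G G' t = ph P (G.b + G.c) (G'.b + G.c) t := by
  unfold mv; rw [if_neg (not_le.mpr h), if_pos h']

theorem mv3 {G G' : Y P} {t : ℝ} (h : G.c < t) : mv G G' t = t := by
  have := G.hbc
  unfold mv; rw [if_neg (by linarith), if_neg (by linarith)]

theorem mv_V {G G' : Y P} {t : ℝ} (h : V P t) : mv G G' t = t := by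
  unfold mv
  split_ifs
  · exact ph_of_V h
  · exact ph_of_V h
  · rfl

theorem ph1_b {G G' : Y P} (h : MV G G') :
    ph P (G.a + G.b) (G.a + G'.b) G.b = G'.b := by
  have := G.hab
  rw [ph_far h.nb (by linarith)]; ring

theorem ph2_b {G G' : Y P} (h : MV G G') :
    ph P (G.b + G.c) (G'.b + G.c) G.b = G'.b := by
  have := G.hbc
  rw [ph_far h.nb (by linarith)]; ring

theorem np_arc1 (hP : IsPolygon P) (G : Y P) {t : ℝ} (h1 : G.a < t) (h2 : t < G.b) :
    NP G t ↔ V P t ∨ V P (G.a + G.b - t) ∨ 2 * t = G.a + G.b := by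
  have hab := G.hab
  have hbc := G.hbc
  have hca := G.hca
  rw [np_pair hP G (by linarith) (by linarith) (cls_arc hP G h1 h2)]
  have : t = G.a + G.b - t ↔ 2 * t = G.a + G.b := ⟨fun h => by linarith, fun h => by linarith⟩
  rw [this]

theorem np_arc2 (hP : IsPolygon P) (G : Y P) {t : ℝ} (h1 : G.b < t) (h2 : t < G.c) :
    NP G t ↔ V P t ∨ V P (G.b + G.c - t) ∨ 2 * t = G.b + G.c := by
  have hab := G.hab
  have hbc := G.hbc
  have hca := G.hca
  rw [np_pair hP G (by linarith) (by linarith) (cls_arc2 hP G h1 h2)]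
  have : t = G.b + G.c - t ↔ 2 * t = G.b + G.c := ⟨fun h => by linarith, fun h => by linarith⟩
  rw [this]

theorem np_arc3 (hP : IsPolygon P) (G : Y P) {t : ℝ} (h1 : G.c < t) (h2 : t < G.a + per P) :
    NP G t ↔ V P t ∨ V P (G.c + (G.a + per P) - t) ∨ t = G.c + (G.a + per P) - t := by
  have hab := G.hab
  have hbc := G.hbc
  have hca := G.hca
  exact np_pair hP G (by linarith) (by linarith) (cls_arc3 hP G h1 h2)

theorem sn1 (hP : IsPolygon P) {G G' : Y P} (h : MV G G') {t : ℝ} (h1 : G.a ≤ t) (h2 : t ≤ G.b)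
    (h3 : NP G t) : SN P G.a G.c (G.a + G.b) t := by
  have hab := G.hab
  have hbc := G.hbc
  refine ⟨h1, by linarith, by linarith, by linarith, ?_⟩
  rcases h1.lt_or_eq with h4 | h4
  · rcases h2.lt_or_eq with h5 | h5
    · exact (np_arc1 hP G h4 h5).mp h3
    · right; left
      rw [h5, show G.a + G.b - G.b = G.a by ring]; exact h.Va
  · left; rw [← h4]; exact h.Va

theorem sn2 (hP : IsPolygon P) {G G' : Y P} (h : MV G G') {t : ℝ} (h1 : G.b ≤ t) (h2 : t ≤ G.c)
    (h3 : NP G t) : SN P G.a G.c (G.b + G.c) t := by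
  have hab := G.hab
  have hbc := G.hbc
  refine ⟨by linarith, by linarith, by linarith, by linarith, ?_⟩
  rcases h1.lt_or_eq with h4 | h4
  · rcases h2.lt_or_eq with h5 | h5
    · exact (np_arc2 hP G h4 h5).mp h3
    · left; rw [h5]; exact h.Vc
  · right; left
    rw [← h4, show G.b + G.c - G.b = G.c by ring]; exact h.Vc

/-- arc 1 -/
theorem in1 (hP : IsPolygon P) {G G' : Y P} (h : MV G G') {t : ℝ} (h1 : G.a < t) (h2 : t < G.b)
    (h3 : NP G t) : G.a < mv G G' t ∧ mv G G' t < G'.b := by
  rw [mv1 h2.le]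
  have s1 := sn1 hP h h1.le h2.le h3
  have s2 := sn1 hP h le_rfl G.hab.le (np_a hP G)
  have s3 := sn1 hP h G.hab.le le_rfl (np_b hP G)
  have m1 := ph_mono h.C1 s2 s1 h1
  have m2 := ph_mono h.C1 s1 s3 h2
  rw [ph_of_V h.Va] at m1
  rw [ph1_b h] at m2
  exact ⟨m1, m2⟩

/-- arc 2 -/
theorem in2 (hP : IsPolygon P) {G G' : Y P} (h : MV G G') {t : ℝ} (h1 : G.b < t) (h2 : t < G.c)
    (h3 : NP G t) : G'.b < mv G G' t ∧ mv G G' t < G.c := by
  rw [mv2 h1 h2.le]
  have s1 := sn2 hP h h1.le h2.le h3
  have s2 := sn2 hP h le_rfl G.hbc.le (np_b hP G)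
  have s3 := sn2 hP h G.hbc.le le_rfl (np_c hP G)
  have m1 := ph_mono h.C2 s2 s1 h1
  have m2 := ph_mono h.C2 s1 s3 h2
  rw [ph2_b h] at m1
  rw [ph_of_V h.Vc] at m2
  exact ⟨m1, m2⟩

theorem mv_b {G G' : Y P} (h : MV G G') : mv G G' G.b = G'.b := by
  rw [mv1 le_rfl, ph1_b h]

theorem half_mv (hP : IsPolygon P) {G G' : Y P} (h : MV G G') : Half G G' (mv G G') (mv G' G) := by
  have hab := G.hab
  have hbc := G.hbc
  have hca := G.hca
  have hab' := G'.hab
  have hbc' := G'.hbc
  have hca' := G'.hca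
  have ea := h.a_eq
  have ec := h.c_eq
  have fc : mv G G' G.c = G.c := mv_V h.Vc
  have fa : mv G G' G.a = G.a := mv_V h.Va
  refine ⟨ea, h.Va, ?_, ?_, ?_, fun t _ _ h3 => mv_V h3⟩
  · -- map
    intro t h1 h2 h3
    rcases h1.lt_or_eq with h1 | rfl
    swap
    · rw [fa]
      refine ⟨le_rfl, by linarith, ?_, mv_V h.Va⟩
      rw [← ea]; exact np_a hP G'
    rcases lt_trichotomy t G.b with hb | rfl | hb
    · obtain ⟨i1, i2⟩ := in1 hP h h1 hb h3
      have s1 := sn1 hP h h1.le hb.le h3
      have e1 : mv G G' t = ph P (G.a + G.b) (G.a + G'.b) t := mv1 hb.le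
      refine ⟨i1.le, by linarith, ?_, ?_⟩
      · rw [np_arc1 hP G' (by linarith) i2, ea]
        have := ph_SN (σ' := G.a + G'.b) s1 (by rw [← e1]; exact i1.le) (by rw [← e1]; linarith)
          (by rw [← e1]; linarith) (by rw [← e1]; linarith)
        rw [← e1] at this
        exact this.h5
      · rw [mv1 (by linarith), ea, e1]
        exact ph_inv h.C1 s1 (by rw [← e1]; exact i1.le) (by rw [← e1]; linarith)
    · rw [mv_b h]
      exact ⟨by linarith, by linarith, np_b hP G', mv_b h.symm⟩
    · rcases lt_trichotomy t G.c with hc | rfl | hc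
      · obtain ⟨i1, i2⟩ := in2 hP h hb hc h3
        have s1 := sn2 hP h hb.le hc.le h3
        have e1 : mv G G' t = ph P (G.b + G.c) (G'.b + G.c) t := mv2 hb hc.le
        refine ⟨by linarith, by linarith, ?_, ?_⟩
        · rw [np_arc2 hP G' i1 (by linarith), ec]
          have := ph_SN (σ' := G'.b + G.c) s1 (by rw [← e1]; linarith) (by rw [← e1]; exact i2.le)
            (by rw [← e1]; linarith) (by rw [← e1]; linarith)
          rw [← e1] at this
          exact this.h5
        · rw [mv2 i1 (by linarith), ec, e1]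
          exact ph_inv h.C2 s1 (by rw [← e1]; linarith) (by rw [← e1]; exact i2.le)
      · rw [fc]
        refine ⟨by linarith, by linarith, ?_, mv_V h.Vc⟩
        rw [← ec]; exact np_c hP G'
      · rw [mv3 hc]
        refine ⟨h1.le, h2, ?_, mv3 (by linarith)⟩
        rw [np_arc3 hP G hc h2] at h3
        rw [np_arc3 hP G' (by linarith) (by linarith), ea, ec]
        exact h3
  · -- mono
    intro t u h1 h2 h3 h4 h5
    rcases le_or_gt u G.b with hu | hu
    · rw [mv1 hu, mv1 (by linarith)]
      exact ph_mono h.C1 (sn1 hP h h1 (by linarith) h4) (sn1 hP h (by linarith) hu h5) h2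
    rcases le_or_gt t G.b with ht | ht
    · have m1 : mv G G' t ≤ G'.b := by
        rcases ht.lt_or_eq with ht | rfl
        · rcases h1.lt_or_eq with h1 | rfl
          · exact (in1 hP h h1 ht h4).2.le
          · rw [fa]; linarith
        · rw [mv_b h]
      have m2 : G'.b < mv G G' u := by
        rcases lt_trichotomy u G.c with hc | rfl | hc
        · exact (in2 hP h hu hc h5).1
        · rw [fc]; linarith
        · rw [mv3 hc]; linarith
      linarith
    rcases le_or_gt u G.c with hc | hc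
    · rw [mv2 hu hc, mv2 ht (by linarith)]
      exact ph_mono h.C2 (sn2 hP h ht.le (by linarith) h4) (sn2 hP h hu.le hc h5) h2
    rcases lt_trichotomy t G.c with hc' | rfl | hc'
    · have := (in2 hP h ht hc' h4).2
      rw [mv3 hc]; linarith
    · rw [fc, mv3 hc]; exact hc
    · rw [mv3 hc, mv3 hc']; exact h2
  · -- glued
    have junc : ∀ t u : ℝ, t = G.a ∨ t = G.b ∨ t = G.c → u = G.a ∨ u = G.b ∨ u = G.c →
        G'.Glued (mv G G' t : Bd P) (mv G G' u : Bd P) := by
      intro t u ht hu
      have a1 : (mv G G' u : Bd P) ∈ ({(G'.a : Bd P), (G'.b : Bd P), (G'.c : Bd P)} : Set (Bd P)) := by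
        rcases hu with rfl | rfl | rfl
        · rw [fa, ea]; exact Or.inl rfl
        · rw [mv_b h]; exact Or.inr (Or.inl rfl)
        · rw [fc, ec]; exact Or.inr (Or.inr rfl)
      rcases ht with rfl | rfl | rfl
      · rw [← cls_a hP] at a1; rw [fa]; rwa [ea] at a1
      · rw [← cls_b hP] at a1; rw [mv_b h]; exact a1
      · rw [← cls_c hP] at a1; rw [fc]; rwa [ec] at a1
    intro t u h1 h2 h3 u1 u2 u3 hg
    have jcase : ∀ {x : Bd P}, (u : Bd P) ∈ ({(G.a : Bd P), (G.b : Bd P), (G.c : Bd P)} : Set (Bd P)) →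
        u = G.a ∨ u = G.b ∨ u = G.c := by
      intro _ hu
      rcases hu with hu | hu | hu
      · left; exact coe_inj hP hu (by linarith) (by linarith)
      · right; left; exact coe_inj hP hu (by linarith) (by linarith)
      · right; right; exact coe_inj hP hu (by linarith) (by linarith)
    rcases h1.lt_or_eq with h1 | rfl
    swap
    · have : (u : Bd P) ∈ G.cls (G.a : Bd P) := hg
      rw [cls_a hP] at this
      exact junc _ _ (Or.inl rfl) (jcase (x := 0) this)
    rcases lt_trichotomy t G.b with hb | rfl | hb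
    · have hu : (u : Bd P) ∈ G.cls (t : Bd P) := hg
      rw [cls_arc hP G h1 hb] at hu
      rcases hu with hu | hu
      · have := coe_inj hP hu (by linarith) (by linarith)
        rw [this]; exact Or.inl rfl
      · have e : u = G.a + G.b - t := coe_inj hP hu (by linarith) (by linarith)
        obtain ⟨i1, i2⟩ := in1 hP h h1 hb h3
        have s1 := sn1 hP h h1.le hb.le h3
        have e2 : mv G G' u = G'.a + G'.b - mv G G' t := by
          rw [mv1 hb.le, mv1 (by linarith), e, ea]
          exact ph_mirror h.C1 s1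
        show (mv G G' u : Bd P) ∈ G'.cls (mv G G' t : Bd P)
        rw [cls_arc hP G' (by linarith) i2, e2]
        exact Or.inr rfl
    · have : (u : Bd P) ∈ G.cls (G.b : Bd P) := hg
      rw [cls_b hP] at this
      exact junc _ _ (Or.inr (Or.inl rfl)) (jcase (x := 0) this)
    · rcases lt_trichotomy t G.c with hc | rfl | hc
      · have hu : (u : Bd P) ∈ G.cls (t : Bd P) := hg
        rw [cls_arc2 hP G hb hc] at hu
        rcases hu with hu | hu
        · have := coe_inj hP hu (by linarith) (by linarith)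
          rw [this]; exact Or.inl rfl
        · have e : u = G.b + G.c - t := coe_inj hP hu (by linarith) (by linarith)
          obtain ⟨i1, i2⟩ := in2 hP h hb hc h3
          have s1 := sn2 hP h hb.le hc.le h3
          have e2 : mv G G' u = G'.b + G'.c - mv G G' t := by
            rw [mv2 hb hc.le, mv2 (by linarith) (by linarith), e, ec]
            exact ph_mirror h.C2 s1
          show (mv G G' u : Bd P) ∈ G'.cls (mv G G' t : Bd P)
          rw [cls_arc2 hP G' i1 (by linarith), e2]
          exact Or.inr rfl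
      · have : (u : Bd P) ∈ G.cls (G.c : Bd P) := hg
        rw [cls_c hP] at this
        exact junc _ _ (Or.inr (Or.inr rfl)) (jcase (x := 0) this)
      · have hu : (u : Bd P) ∈ G.cls (t : Bd P) := hg
        rw [cls_arc3 hP G hc h2] at hu
        rcases hu with hu | hu
        · have := coe_inj hP hu (by linarith) (by linarith)
          rw [this]; exact Or.inl rfl
        · have e : u = G.c + (G.a + per P) - t := coe_inj hP hu (by linarith) (by linarith)
          show (mv G G' u : Bd P) ∈ G'.cls (mv G G' t : Bd P)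
          rw [mv3 hc, mv3 (by linarith), cls_arc3 hP G' (by linarith) (by linarith), e, ea, ec]
          exact Or.inr rfl

theorem sameType_mv (hP : IsPolygon P) {G G' : Y P} (h : MV G G') : SameType G G' :=
  transport hP (half_mv hP h) (half_mv hP h.symm)

end Q137.YT
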