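import Pool.Agent.H586R2.AF.Geo

/-!
# Polygons in convex position
-/

set_option autoImplicit false

namespace Q137.YT

open Pool.Agent.H586R2.AF Real

/-- cross product -/
def cr (z w : ℂ) : ℝ := z.re * w.im - z.im * w.re

theorem vtx_mod (P : List (ℝ × ℝ)) (k : ℕ) : vtx P k = vtx P (k % P.length) := by
  unfold vtx
  rw [Nat.mod_mod]

/-- vertices in convex position, listed counterclockwise -/
def Cvx (P : List (ℝ × ℝ)) : Prop :=
  ∀ a b c, a < b → b < c → c < P.length → 0 < cr (vtx P b - vtx P a) (vtx P c - vtx P a)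

theorem cvx_edge {P : List (ℝ × ℝ)} (h3 : 3 ≤ P.length) (h : Cvx P) {k m : ℕ} (hk : k < P.length)
    (hm : m < P.length) (h1 : m ≠ k) (h2 : m ≠ (k + 1) % P.length) :
    0 < cr (vtx P (k + 1) - vtx P k) (vtx P m - vtx P k) := by
  rcases Nat.lt_or_ge (k + 1) P.length with h4 | h4
  · rw [Nat.mod_eq_of_lt h4] at h2
    rcases Nat.lt_or_ge m k with h5 | h5
    · have := h m k (k + 1) h5 (by omega) h4
      have e : cr (vtx P (k + 1) - vtx P k) (vtx P m - vtx P k) =
          cr (vtx P k - vtx P m) (vtx P (k + 1) - vtx P m) := by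
        unfold cr; simp only [Complex.sub_re, Complex.sub_im]; ring
      rw [e]; exact this
    · exact h k (k + 1) m (by omega) (by omega) hm
  · have e1 : k + 1 = P.length := by omega
    rw [e1, Nat.mod_self] at h2
    have e2 : vtx P (k + 1) = vtx P 0 := by rw [e1, vtx_mod, Nat.mod_self]
    have := h 0 m k (by omega) (by omega) hk
    rw [e2]
    have e : cr (vtx P 0 - vtx P k) (vtx P m - vtx P k) =
          cr (vtx P m - vtx P 0) (vtx P k - vtx P 0) := by
        unfold cr; simp only [Complex.sub_re, Complex.sub_im]; ring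
    rw [e]; exact this

theorem cvx_edge' {P : List (ℝ × ℝ)} (h3 : 3 ≤ P.length) (h : Cvx P) {k m : ℕ}
    (h1 : m % P.length ≠ k % P.length) (h2 : m % P.length ≠ (k + 1) % P.length) :
    0 < cr (vtx P (k + 1) - vtx P k) (vtx P m - vtx P k) := by
  have hn : 0 < P.length := by omega
  rw [vtx_mod P (k + 1), vtx_mod P k, vtx_mod P m]
  have := cvx_edge h3 h (Nat.mod_lt k hn) (Nat.mod_lt m hn) h1 (by rwa [Nat.mod_add_mod])
  rw [vtx_mod P (k % P.length + 1), Nat.mod_add_mod] at this
  exact this


theorem cvx_polygon {P : List (ℝ × ℝ)} (h3 : 3 ≤ P.length) (h : Cvx P)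
    (hs : ∑ k ∈ Finset.range P.length, (π - intAngle P k) = 2 * π) : IsPolygon P := by
  have hn : 0 < P.length := by omega
  have mod1 : ∀ k : ℕ, (k + 1) % P.length ≠ k % P.length := by
    intro k h
    have h1 : (k + 1) ≡ k [MOD P.length] := h
    have h2 := (Nat.modEq_iff_dvd' (Nat.le_succ k)).mp h1.symm
    have h4 : k.succ - k = 1 := by omega
    rw [h4] at h2
    have := Nat.le_of_dvd (by norm_num) h2
    omega
  have mod2 : ∀ k : ℕ, (k + 2) % P.length ≠ k % P.length := by
    intro k h
    have h1 : (k + 2) ≡ k [MOD P.length] := h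
    have h2 := (Nat.modEq_iff_dvd' (show k ≤ k + 2 by omega)).mp h1.symm
    have h4 : k + 2 - k = 2 := by omega
    rw [h4] at h2
    have := Nat.le_of_dvd (by norm_num) h2
    omega
  have key : ∀ k m : ℕ, m % P.length ≠ k % P.length → m % P.length ≠ (k + 1) % P.length →
      0 < cr (vtx P (k + 1) - vtx P k) (vtx P m - vtx P k) := fun k m => cvx_edge' h3 h
  have lin : ∀ (e x y v : ℂ) (t : ℝ), cr e ((1 - t) • x + t • y - v) =
      (1 - t) * cr e (x - v) + t * cr e (y - v) := by
    intro e x y v t
    unfold cr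
    simp only [Complex.sub_re, Complex.sub_im, Complex.add_re, Complex.add_im, Complex.real_smul,
      Complex.mul_re, Complex.mul_im, Complex.ofReal_re, Complex.ofReal_im, Complex.one_re,
      Complex.one_im]
    ring
  have z1 : ∀ k : ℕ, cr (vtx P (k + 1) - vtx P k) (vtx P k - vtx P k) = 0 := by
    intro k; unfold cr; simp
  have z2 : ∀ k : ℕ, cr (vtx P (k + 1) - vtx P k) (vtx P (k + 1) - vtx P k) = 0 := by
    intro k; unfold cr; ring
  have on : ∀ (k : ℕ) (z : ℂ), z ∈ segment ℝ (vtx P k) (vtx P (k + 1)) →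
      cr (vtx P (k + 1) - vtx P k) (z - vtx P k) = 0 := by
    intro k z hz
    rw [segment_eq_image] at hz
    obtain ⟨t, -, rfl⟩ := hz
    show cr _ ((1 - t) • vtx P k + t • vtx P (k + 1) - vtx P k) = 0
    rw [lin, z1, z2]; ring
  refine ⟨h3, ?_, ?_, ?_, hs⟩
  · intro k he
    have := key k (k + 2) (mod2 k) (by
      have := mod1 (k + 1)
      exact this)
    rw [he] at this
    unfold cr at this
    simp at this
  · intro k l hkl hl hne hne'
    rw [Set.disjoint_left]
    intro z hz hz'
    have h0 := on k z hz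
    rw [segment_eq_image] at hz'
    obtain ⟨t, ht, rfl⟩ := hz'
    have h0' : cr (vtx P (k + 1) - vtx P k) ((1 - t) • vtx P l + t • vtx P (l + 1) - vtx P k) = 0 := h0
    rw [lin] at h0'
    have hk1 : k % P.length = k := Nat.mod_eq_of_lt (by omega)
    have hk2 : (k + 1) % P.length = k + 1 := Nat.mod_eq_of_lt (by omega)
    have hl1 : l % P.length = l := Nat.mod_eq_of_lt hl
    have a1 := key k l (by rw [hk1, hl1]; omega) (by rw [hk2, hl1]; exact hne)
    have a2 := key k (l + 1) (by
        rw [hk1]
        rcases Nat.lt_or_ge (l + 1) P.length with h4 | h4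
        · rw [Nat.mod_eq_of_lt h4]; omega
        · have e1 : l + 1 = P.length := by omega
          rw [e1, Nat.mod_self]
          intro h5
          exact hne' ⟨h5.symm, e1⟩) (by
        rw [hk2]
        rcases Nat.lt_or_ge (l + 1) P.length with h4 | h4
        · rw [Nat.mod_eq_of_lt h4]; omega
        · have e1 : l + 1 = P.length := by omega
          rw [e1, Nat.mod_self]; omega)
    rcases ht.1.lt_or_eq with h5 | h5
    · have : 0 ≤ (1 - t) * cr (vtx P (k + 1) - vtx P k) (vtx P l - vtx P k) :=
        mul_nonneg (by linarith [ht.2]) a1.le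
      have : 0 < t * cr (vtx P (k + 1) - vtx P k) (vtx P (l + 1) - vtx P k) := mul_pos h5 a2
      linarith
    · rw [← h5] at h0'
      simp at h0'
      linarith
  · intro k
    apply Set.Subset.antisymm
    · rintro z ⟨hz, hz'⟩
      have h0 := on k z hz
      rw [segment_eq_image] at hz'
      obtain ⟨t, ht, rfl⟩ := hz'
      have h0' : cr (vtx P (k + 1) - vtx P k)
        ((1 - t) • vtx P (k + 1) + t • vtx P (k + 2) - vtx P k) = 0 := h0
      rw [lin, z2] at h0'
      have a := key k (k + 2) (mod2 k) (mod1 (k + 1))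
      have ht0 : t = 0 := by
        rcases mul_eq_zero.mp (show t * cr (vtx P (k + 1) - vtx P k) (vtx P (k + 2) - vtx P k) = 0 by
          linarith) with h6 | h6
        · exact h6
        · exact absurd h6 a.ne'
      subst ht0
      simp
    · rintro z rfl
      exact ⟨right_mem_segment ℝ _ _, left_mem_segment ℝ _ _⟩

end Q137.YT
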