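import Pool.Agent.Q137.YT.Defs
import Pool.Agent.H586R2.AF.T_G1

/-!
# Positions of the vertices on the boundary circle
-/

set_option autoImplicit false

namespace Q137.YT

open Pool.Agent.H586R2.AF Real

variable {P : List (ℝ × ℝ)}

/-- positions of all lifts of the vertices -/
noncomputable def s (P : List (ℝ × ℝ)) (k : ℤ) : ℝ :=
  spos P (k % (P.length : ℤ)).toNat + ((k / (P.length : ℤ) : ℤ) : ℝ) * per P

/-- the angle at vertex `k` -/
noncomputable def al (P : List (ℝ × ℝ)) (k : ℤ) : ℝ := intAngle P (k % (P.length : ℤ)).toNat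

theorem spos_lt (hP : IsPolygon P) (k : ℕ) : spos P k < spos P (k + 1) := by
  unfold spos
  rw [Finset.sum_range_succ]
  have : 0 < ‖vtx P (k + 1) - vtx P k‖ := by
    rw [norm_pos_iff, sub_ne_zero]
    exact (hP.ne k).symm
  linarith

theorem spos_mono (hP : IsPolygon P) : StrictMono (spos P) := strictMono_nat_of_lt_succ (spos_lt hP)

theorem spos_zero : spos P 0 = 0 := by simp [spos]

theorem per_pos (hP : IsPolygon P) : 0 < per P := by
  have := spos_mono hP (show 0 < P.length by have := hP.three; omega)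
  rw [spos_zero] at this
  exact this

theorem npos (hP : IsPolygon P) : (0 : ℤ) < P.length := by have := hP.three; omega

theorem s_add_mul (hP : IsPolygon P) (k z : ℤ) : s P (k + z * P.length) = s P k + z * per P := by
  have h := npos hP
  unfold s
  rw [Int.add_mul_emod_self_right, Int.add_mul_ediv_right _ _ h.ne']
  push_cast
  ring

theorem s_add (hP : IsPolygon P) (k : ℤ) : s P (k + P.length) = s P k + per P := by
  have := s_add_mul hP k 1
  simpa using this

theorem s_nat (hP : IsPolygon P) {k : ℕ} (hk : k ≤ P.length) : s P k = spos P k := by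
  have h := npos hP
  rcases hk.lt_or_eq with h1 | h1
  · unfold s
    rw [Int.emod_eq_of_lt (by omega) (by omega), Int.ediv_eq_zero_of_lt (by omega) (by omega)]
    simp
  · have := s_add hP 0
    rw [zero_add] at this
    rw [h1, this]
    unfold s
    simp [spos_zero, per]

theorem s_lt (hP : IsPolygon P) (k : ℤ) : s P k < s P (k + 1) := by
  have h := npos hP
  obtain ⟨r, q, hr0, hr1, rfl⟩ : ∃ r q : ℤ, 0 ≤ r ∧ r < P.length ∧ k = r + q * P.length :=
    ⟨k % P.length, k / P.length, Int.emod_nonneg _ h.ne', Int.emod_lt_of_pos _ h, by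
      have := Int.emod_add_mul_ediv k P.length; linarith [mul_comm (k / (P.length : ℤ)) P.length]⟩
  have e : r + q * P.length + 1 = (r + 1) + q * P.length := by ring
  rw [e, s_add_mul hP, s_add_mul hP]
  obtain ⟨m, rfl⟩ := Int.eq_ofNat_of_zero_le hr0
  have h1 : s P (m : ℤ) = spos P m := s_nat hP (by omega)
  have h2 : s P ((m : ℤ) + 1) = spos P (m + 1) := by
    have := s_nat hP (k := m + 1) (by omega)
    push_cast at this
    exact this
  have h3 := spos_lt hP m
  rw [h1, h2]
  linarith

theorem s_mono (hP : IsPolygon P) : StrictMono (s P) := strictMono_int_of_lt_succ (s_lt hP)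

theorem coe_eq {t u : ℝ} : (t : Bd P) = (u : Bd P) ↔ ∃ z : ℤ, t = u + z * per P := by
  rw [← sub_eq_zero, ← AddCircle.coe_sub, AddCircle.coe_eq_zero_iff]
  constructor
  · rintro ⟨z, hz⟩
    exact ⟨z, by rw [zsmul_eq_mul] at hz; linarith⟩
  · rintro ⟨z, hz⟩
    exact ⟨z, by rw [zsmul_eq_mul]; linarith⟩

theorem coe_add_per (t : ℝ) : ((t + per P : ℝ) : Bd P) = (t : Bd P) :=
  coe_eq.mpr ⟨1, by push_cast; ring⟩

theorem coe_add_mul (t : ℝ) (z : ℤ) : ((t + z * per P : ℝ) : Bd P) = (t : Bd P) :=
  coe_eq.mpr ⟨z, rfl⟩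

theorem coe_inj (hP : IsPolygon P) {t u : ℝ} (h : (t : Bd P) = (u : Bd P)) (h1 : t < u + per P)
    (h2 : u < t + per P) : t = u := by
  obtain ⟨z, hz⟩ := coe_eq.mp h
  have hL := per_pos hP
  have h3 : (z : ℝ) < 1 := by
    by_contra h4
    push Not at h4
    nlinarith
  have h4 : (-1 : ℝ) < z := by
    by_contra h5
    push Not at h5
    nlinarith
  have h5 : z < 1 := by exact_mod_cast h3
  have h6 : -1 < z := by exact_mod_cast h4
  have : z = 0 := by omega
  rw [hz, this]; simp

/-- lift into a given period -/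
theorem exists_lift (hP : IsPolygon P) (a : ℝ) (x : Bd P) :
    ∃ t : ℝ, a ≤ t ∧ t < a + per P ∧ (t : Bd P) = x := by
  have hL := per_pos hP
  have : Fact (0 < per P) := ⟨hL⟩
  refine ⟨(AddCircle.equivIco (per P) a x : ℝ), (AddCircle.equivIco (per P) a x).2.1,
    (AddCircle.equivIco (per P) a x).2.2, ?_⟩
  exact (AddCircle.equivIco (per P) a).symm_apply_apply x

/-- `t` is the position of a lift of a vertex -/
def V (P : List (ℝ × ℝ)) (t : ℝ) : Prop := ∃ k : ℤ, s P k = t

theorem s_coe (_hP : IsPolygon P) (k : ℤ) :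
    ((s P k : ℝ) : Bd P) = vx P (k % (P.length : ℤ)).toNat := by
  unfold s vx
  rw [coe_add_mul]

theorem mod_lt (hP : IsPolygon P) (k : ℤ) : (k % (P.length : ℤ)).toNat < P.length := by
  have h := npos hP
  have := Int.emod_lt_of_pos k h
  have := Int.emod_nonneg k h.ne'
  omega

theorem V_iff (hP : IsPolygon P) (t : ℝ) :
    (∃ k, k < P.length ∧ vx P k = (t : Bd P)) ↔ V P t := by
  constructor
  · rintro ⟨k, hk, h⟩
    obtain ⟨z, hz⟩ := coe_eq.mp h.symm
    refine ⟨k + z * P.length, ?_⟩
    rw [s_add_mul hP, s_nat hP hk.le, hz]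
  · rintro ⟨k, rfl⟩
    exact ⟨_, mod_lt hP k, (s_coe hP k).symm⟩

theorem V_shift (hP : IsPolygon P) {t : ℝ} (z : ℤ) : V P (t + z * per P) ↔ V P t := by
  rw [← V_iff hP, ← V_iff hP, coe_add_mul]

theorem angle_V (hP : IsPolygon P) (k : ℤ) : angle P ((s P k : ℝ) : Bd P) = al P k := by
  classical
  unfold angle al
  have h : ∃ j, j < P.length ∧ vx P j = ((s P k : ℝ) : Bd P) := ⟨_, mod_lt hP k, (s_coe hP k).symm⟩
  rw [dif_pos h]
  congr 1
  have key : ∀ c d : ℕ, c < P.length → d < P.length →
      ((spos P c : ℝ) : Bd P) = ((spos P d : ℝ) : Bd P) → c = d := by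
    intro c d hc hd h2
    have e1 : spos P c < per P := spos_mono hP hc
    have e2 : spos P d < per P := spos_mono hP hd
    have e3 : 0 ≤ spos P c := by
      have := (spos_mono hP).monotone (Nat.zero_le c); rwa [spos_zero] at this
    have e4 : 0 ≤ spos P d := by
      have := (spos_mono hP).monotone (Nat.zero_le d); rwa [spos_zero] at this
    exact (spos_mono hP).injective (coe_inj hP h2 (by linarith) (by linarith))
  exact key _ _ h.choose_spec.1 (mod_lt hP k) (h.choose_spec.2.trans (s_coe hP k))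

theorem angle_notV (hP : IsPolygon P) {t : ℝ} (h : ¬ V P t) : angle P (t : Bd P) = π := by
  unfold angle
  rw [dif_neg]
  rwa [V_iff hP]

theorem al_pos (hP : IsPolygon P) (k : ℤ) : 0 < al P k := G1h.int_pos hP _

theorem al_lt (k : ℤ) : al P k < 2 * π := (G1h.int_mem P _).2

theorem angle_pos (hP : IsPolygon P) (x : Bd P) : 0 < angle P x := by
  unfold angle
  split_ifs with h
  · exact G1h.int_pos hP _
  · exact Real.pi_pos

theorem al_add (k : ℤ) : al P (k + P.length) = al P k := by
  unfold al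
  rw [Int.add_emod_right]

theorem sum_period (f : ℤ → ℝ) (n : ℕ) (hf : ∀ k, f (k + n) = f k) (i : ℤ) :
    ∑ k ∈ Finset.Ico i (i + n), f k = ∑ k ∈ Finset.range n, f k := by
  have key : ∀ i : ℤ, ∑ k ∈ Finset.Ico (i + 1) (i + 1 + n), f k = ∑ k ∈ Finset.Ico i (i + n), f k := by
    intro i
    rcases Nat.eq_zero_or_pos n with rfl | hn
    · simp
    · have e1 : Finset.Ico i (i + n) = insert i (Finset.Ico (i + 1) (i + n)) := by
        ext x; simp only [Finset.mem_Ico, Finset.mem_insert]; omega
      have e2 : Finset.Ico (i + 1) (i + 1 + n) = insert (i + n) (Finset.Ico (i + 1) (i + n)) := by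
        ext x; simp only [Finset.mem_Ico, Finset.mem_insert]; omega
      rw [e1, e2, Finset.sum_insert (by simp), Finset.sum_insert (by simp), hf]
  have h0 : ∑ k ∈ Finset.Ico (0 : ℤ) (0 + n), f k = ∑ k ∈ Finset.range n, f k := by
    rw [zero_add]
    refine (Finset.sum_bij (fun (k : ℕ) _ => (k : ℤ)) ?_ ?_ ?_ ?_).symm
    · intro a ha; simp at ha ⊢; exact ha
    · intro a _ b _ h; exact_mod_cast h
    · intro b hb
      rw [Finset.mem_Ico] at hb
      exact ⟨b.toNat, by simp; omega, by omega⟩
    · intro a _; rfl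
  rw [← h0]
  induction i using Int.induction_on with
  | zero => rfl
  | succ i ih => rw [key, ih]
  | pred i ih =>
    have := key (-(i : ℤ) - 1)
    rw [show (-(i : ℤ) - 1 + 1) = -i by ring] at this
    rw [← this, ih]

theorem sum_turn (hP : IsPolygon P) (i : ℤ) :
    ∑ k ∈ Finset.Ico i (i + P.length), (π - al P k) = 2 * π := by
  rw [sum_period (fun k => π - al P k) P.length (fun k => by simp only [al_add]) i, ← hP.ccw]
  refine Finset.sum_congr rfl fun k hk => ?_
  rw [Finset.mem_range] at hk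
  unfold al
  rw [Int.emod_eq_of_lt (by omega) (by omega)]
  simp

end Q137.YT
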