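import Pool.Agent.Q137.YT.Move

/-!
# Valid gluings: two of the three junction points are vertices
-/

set_option autoImplicit false

namespace Q137.YT

open Pool.Agent.H586R2.AF Real

variable {P : List (ℝ × ℝ)}

/-- `G` is the gluing whose junction consists of the vertices `i`, `j` and of the point `r` of
the arc between them -/
structure Rep (G : Y P) (i j : ℤ) (r : ℝ) : Prop where
  i0 : 0 ≤ i
  i1 : i < P.length
  h1 : s P i < r
  h2 : r < s P j
  h3 : s P j < s P i + per P
  eq : ∀ (k1 : s P i < r) (k2 : r < s P j) (k3 : s P j < s P i + per P),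
    G.Glued = (⟨s P i, r, s P j, k1, k2, k3⟩ : Y P).Glued

theorem SameType.refl (G : Y P) : SameType G G :=
  ⟨Equiv.refl _, fun _ _ => Iff.rfl, fun _ => ⟨fun _ _ => Iff.rfl, fun _ _ => Iff.rfl⟩⟩

theorem sameType_of_glued {G G' : Y P} (h : G.Glued = G'.Glued) : SameType G G' :=
  sameType_congr h rfl (SameType.refl G')

theorem pair_angle (hP : IsPolygon P) (G : Y P) (hv : G.Valid) {t m : ℝ} (hne : (t : Bd P) ≠ (m : Bd P))
    (h : (m : Bd P) ∈ G.cls (t : Bd P)) : angle P (t : Bd P) + angle P (m : Bd P) ≤ 2 * π := by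
  classical
  have := hv (t : Bd P) {(t : Bd P), (m : Bd P)} (by
    intro x hx
    simp only [Finset.coe_insert, Finset.coe_singleton, Set.mem_insert_iff,
      Set.mem_singleton_iff] at hx
    rcases hx with rfl | rfl
    · exact self_mem _ _
    · exact h)
  rwa [Finset.sum_pair hne] at this

theorem junction_angle (hP : IsPolygon P) (G : Y P) (hv : G.Valid) :
    angle P (G.a : Bd P) + (angle P (G.b : Bd P) + angle P (G.c : Bd P)) ≤ 2 * π := by
  classical
  obtain ⟨n1, n2, n3⟩ := ne_abc hP G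
  have := hv (G.a : Bd P) {(G.a : Bd P), (G.b : Bd P), (G.c : Bd P)} (by
    rw [cls_a hP]
    intro x hx
    simpa using hx)
  rw [Finset.sum_insert (by simp [n1, n2]), Finset.sum_pair n3] at this
  exact this

theorem two_V (hP : IsPolygon P) (G : Y P) (hv : G.Valid) :
    (V P G.a ∧ V P G.c) ∨ (V P G.b ∧ V P G.a) ∨ (V P G.c ∧ V P G.b) := by
  have h := junction_angle hP G hv
  have pa := angle_pos hP (G.a : Bd P)
  have pb := angle_pos hP (G.b : Bd P)
  have pc := angle_pos hP (G.c : Bd P)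
  by_cases ha : V P G.a
  · by_cases hc : V P G.c
    · exact Or.inl ⟨ha, hc⟩
    · by_cases hb : V P G.b
      · exact Or.inr (Or.inl ⟨hb, ha⟩)
      · rw [angle_notV hP hb, angle_notV hP hc] at h; linarith
  · by_cases hb : V P G.b
    · by_cases hc : V P G.c
      · exact Or.inr (Or.inr ⟨hc, hb⟩)
      · rw [angle_notV hP ha, angle_notV hP hc] at h; linarith
    · rw [angle_notV hP ha, angle_notV hP hb] at h; linarith

theorem rep_of_V (hP : IsPolygon P) (G : Y P) (ha : V P G.a) (hc : V P G.c) :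
    ∃ i j r, Rep G i j r := by
  obtain ⟨i, hi⟩ := ha
  obtain ⟨j, hj⟩ := hc
  have hn := npos hP
  set z : ℤ := i / P.length with hz
  have e1 : s P (i + (-z) * P.length) = G.a + ((-z : ℤ) : ℝ) * per P := by
    rw [s_add_mul hP, hi]
  have e2 : s P (j + (-z) * P.length) = G.c + ((-z : ℤ) : ℝ) * per P := by
    rw [s_add_mul hP, hj]
  have e0 : i + (-z) * P.length = i % P.length := by
    have := Int.emod_add_mul_ediv i P.length
    rw [hz]; linarith [mul_comm (P.length : ℤ) (i / P.length)]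
  refine ⟨i + (-z) * P.length, j + (-z) * P.length, G.b + ((-z : ℤ) : ℝ) * per P, ?_, ?_, ?_, ?_, ?_, ?_⟩
  · rw [e0]; exact Int.emod_nonneg _ hn.ne'
  · rw [e0]; exact Int.emod_lt_of_pos _ hn
  · rw [e1]; linarith [G.hab]
  · rw [e2]; linarith [G.hbc]
  · rw [e1, e2]; linarith [G.hca]
  · intro k1 k2 k3
    rw [← glued_shift G (-z)]
    have : (⟨s P (i + (-z) * P.length), G.b + ((-z : ℤ) : ℝ) * per P, s P (j + (-z) * P.length),
        k1, k2, k3⟩ : Y P) = shift G (-z) := by
      unfold shift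
      congr 1
    rw [this]

theorem Rep.congr {G H : Y P} (h : G.Glued = H.Glued) {i j : ℤ} {r : ℝ} (hr : Rep H i j r) :
    Rep G i j r :=
  ⟨hr.i0, hr.i1, hr.h1, hr.h2, hr.h3, fun k1 k2 k3 => h.trans (hr.eq k1 k2 k3)⟩

theorem exists_rep' (hP : IsPolygon P) (G : Y P) (hv : G.Valid) : ∃ i j r, Rep G i j r := by
  rcases two_V hP G hv with ⟨h1, h2⟩ | ⟨h1, h2⟩ | ⟨h1, h2⟩
  · exact rep_of_V hP G h1 h2
  · obtain ⟨i, j, r, h⟩ := rep_of_V hP (rot G) h1 (by
      have := (V_shift hP (t := G.a) 1).mpr h2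
      simpa [rot] using this)
    exact ⟨i, j, r, h.congr (glued_rot G).symm⟩
  · obtain ⟨i, j, r, h⟩ := rep_of_V hP (rot (rot G)) h1 (by
      have := (V_shift hP (t := G.b) 1).mpr h2
      simpa [rot] using this)
    exact ⟨i, j, r, h.congr ((glued_rot (rot G)).trans (glued_rot G)).symm⟩

/-- turning angle -/
noncomputable def tau (P : List (ℝ × ℝ)) (k : ℤ) : ℝ := π - al P k

theorem tau_gt (k : ℤ) : -π < tau P k := by have := al_lt (P := P) k; unfold tau; linarith

theorem tau_lt (hP : IsPolygon P) (k : ℤ) : tau P k < π := by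
  have := al_pos hP k; unfold tau; linarith

theorem ij (hP : IsPolygon P) {G : Y P} {i j : ℤ} {r : ℝ} (h : Rep G i j r) :
    i < j ∧ j < i + P.length := by
  have hs := s_mono hP
  constructor
  · exact hs.lt_iff_lt.mp (h.h1.trans h.h2)
  · apply hs.lt_iff_lt.mp
    rw [s_add hP]; exact h.h3

/-- an abstract sum over an arc folded with sum `S` -/
theorem fold_sum (hP : IsPolygon P) (K : Finset ℤ) (S : ℝ)
    (h : ∀ k ∈ K, (∃ l ∈ K, s P l = S - s P k ∧ (l = k ∨ 0 ≤ tau P k + tau P l)) ∨ 0 ≤ tau P k) :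
    -π < ∑ k ∈ K, tau P k := by
  classical
  have hs := (s_mono hP).injective
  set K1 := K.filter (fun k => ∃ l ∈ K, s P l = S - s P k) with hK1
  have hex : ∀ k, ∃ l, k ∈ K1 → l ∈ K ∧ s P l = S - s P k := by
    intro k
    by_cases hk : k ∈ K1
    · obtain ⟨l, h1, h2⟩ := (Finset.mem_filter.mp hk).2
      exact ⟨l, fun _ => ⟨h1, h2⟩⟩
    · exact ⟨k, fun h => absurd h hk⟩
  choose f hf using hex
  have hfK : ∀ k ∈ K1, f k ∈ K1 := by
    intro k hk
    obtain ⟨h1, h2⟩ := hf k hk
    exact Finset.mem_filter.mpr ⟨h1, k, (Finset.mem_filter.mp hk).1, by rw [h2]; ring⟩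
  have hff : ∀ k ∈ K1, f (f k) = k := by
    intro k hk
    apply hs
    rw [(hf _ (hfK k hk)).2, (hf k hk).2]; ring
  have e1 : ∑ k ∈ K1, tau P k = ∑ k ∈ K1, tau P (f k) := by
    refine Finset.sum_nbij' f f hfK hfK hff hff ?_
    intro k hk
    rw [hff k hk]
  have e2 : ∑ k ∈ K1, (if f k = k then 2 * tau P k else 0) ≤ ∑ k ∈ K1, (tau P k + tau P (f k)) := by
    apply Finset.sum_le_sum
    intro k hk
    split_ifs with hfk
    · rw [hfk]; linarith
    · obtain ⟨h1, h2⟩ := hf k hk
      rcases h k (Finset.mem_filter.mp hk).1 with ⟨l, l1, l2, l3⟩ | h3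
      · have : l = f k := hs (by rw [l2, h2])
        subst this
        rcases l3 with l3 | l3
        · exact absurd l3 hfk
        · exact l3
      · rcases h (f k) h1 with ⟨l, l1, l2, l3⟩ | h4
        · have : l = k := hs (by rw [l2, h2]; ring)
          subst this
          rcases l3 with l3 | l3
          · exact absurd l3.symm hfk
          · linarith
        · linarith
  have e3 : -(2 * π) < ∑ k ∈ K1, (if f k = k then 2 * tau P k else 0) := by
    rw [← Finset.sum_filter]
    rcases (K1.filter (fun k => f k = k)).eq_empty_or_nonempty with h0 | ⟨k0, h0⟩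
    · rw [h0, Finset.sum_empty]
      have := Real.pi_pos
      linarith
    · have : K1.filter (fun k => f k = k) = {k0} := by
        rw [Finset.eq_singleton_iff_unique_mem]
        refine ⟨h0, fun x hx => ?_⟩
        obtain ⟨a1, a2⟩ := Finset.mem_filter.mp h0
        obtain ⟨b1, b2⟩ := Finset.mem_filter.mp hx
        apply hs
        have c1 := (hf k0 a1).2
        have c2 := (hf x b1).2
        rw [a2] at c1
        rw [b2] at c2
        linarith
      rw [this, Finset.sum_singleton]
      have := tau_gt (P := P) k0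
      linarith
  have e4 : 0 ≤ ∑ k ∈ K.filter (fun k => ¬ ∃ l ∈ K, s P l = S - s P k), tau P k := by
    apply Finset.sum_nonneg
    intro k hk
    obtain ⟨k1, k2⟩ := Finset.mem_filter.mp hk
    rcases h k k1 with ⟨l, l1, l2, -⟩ | h3
    · exact absurd ⟨l, l1, l2⟩ k2
    · exact h3
  have e5 := Finset.sum_filter_add_sum_filter_not K (fun k => ∃ l ∈ K, s P l = S - s P k) (tau P)
  rw [← hK1] at e5
  rw [Finset.sum_add_distrib, ← e1] at e2
  linarith

end Q137.YT
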