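import Pool.Agent.Q137.YT.Cls

/-!
# Moving the fold of an arc
-/

set_option autoImplicit false

namespace Q137.YT

open Pool.Agent.H586R2.AF Real

variable {P : List (ℝ × ℝ)}

/-- `σ` and `σ'` compare in the same way with all sums of two vertex positions -/
structure Cell (P : List (ℝ × ℝ)) (lo hi σ σ' : ℝ) : Prop where
  lt : ∀ v w, V P v → V P w → lo ≤ v → v ≤ hi → lo ≤ w → w ≤ hi → (v + w < σ ↔ v + w < σ')
  eq : ∀ v w, V P v → V P w → lo ≤ v → v ≤ hi → lo ≤ w → w ≤ hi → (v + w = σ ↔ v + w = σ')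

theorem Cell.symm {lo hi σ σ' : ℝ} (h : Cell P lo hi σ σ') : Cell P lo hi σ' σ :=
  ⟨fun v w a b c d e f => (h.lt v w a b c d e f).symm,
    fun v w a b c d e f => (h.eq v w a b c d e f).symm⟩

theorem Cell.gt {lo hi σ σ' : ℝ} (h : Cell P lo hi σ σ') (v w : ℝ) (a : V P v) (b : V P w)
    (c : lo ≤ v) (d : v ≤ hi) (e : lo ≤ w) (f : w ≤ hi) : σ < v + w ↔ σ' < v + w := by
  have h1 := h.lt v w a b c d e f
  have h2 := h.eq v w a b c d e f
  constructor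
  · intro h3
    rcases lt_trichotomy (v + w) σ' with h4 | h4 | h4
    · have := h1.mpr h4; linarith
    · have := h2.mpr h4; linarith
    · exact h4
  · intro h3
    rcases lt_trichotomy (v + w) σ with h4 | h4 | h4
    · have := h1.mp h4; linarith
    · have := h2.mp h4; linarith
    · exact h4

open Classical in
/-- the new position of a node point -/
noncomputable def ph (P : List (ℝ × ℝ)) (σ σ' t : ℝ) : ℝ :=
  if V P t then t else if 2 * t = σ then t + (σ' - σ) / 2 else t + (σ' - σ)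

theorem ph_mid {σ σ' t : ℝ} (h : ¬ V P t) (h2 : 2 * t = σ) :
    ph P σ σ' t = t + (σ' - σ) / 2 := by
  unfold ph; rw [if_neg h, if_pos h2]

theorem ph_far {σ σ' t : ℝ} (h : ¬ V P t) (h2 : 2 * t ≠ σ) :
    ph P σ σ' t = t + (σ' - σ) := by
  unfold ph; rw [if_neg h, if_neg h2]

/-- node points of an arc folded with sum `σ` -/
structure SN (P : List (ℝ × ℝ)) (lo hi σ t : ℝ) : Prop where
  h1 : lo ≤ t
  h2 : t ≤ hi
  h3 : lo ≤ σ - t
  h4 : σ - t ≤ hi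
  h5 : V P t ∨ V P (σ - t) ∨ 2 * t = σ

theorem kinds {lo hi σ σ' t : ℝ} (h : SN P lo hi σ t) :
    (V P t ∧ ph P σ σ' t = t) ∨ (¬ V P t ∧ 2 * t = σ ∧ ph P σ σ' t = σ' / 2) ∨
      (¬ V P t ∧ 2 * t ≠ σ ∧ ∃ v, V P v ∧ lo ≤ v ∧ v ≤ hi ∧ t = σ - v ∧ ph P σ σ' t = σ' - v) := by
  unfold ph
  by_cases h1 : V P t
  · left; exact ⟨h1, by rw [if_pos h1]⟩
  by_cases h2 : 2 * t = σ
  · right; left
    refine ⟨h1, h2, ?_⟩
    rw [if_neg h1, if_pos h2]; linarith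
  · right; right
    refine ⟨h1, h2, σ - t, ?_, h.h3, h.h4, by ring, ?_⟩
    · rcases h.h5 with h5 | h5 | h5
      · exact absurd h5 h1
      · exact h5
      · exact absurd h5 h2
    · rw [if_neg h1, if_neg h2]; ring

theorem ph_mono {lo hi σ σ' : ℝ} (hc : Cell P lo hi σ σ') {t u : ℝ} (ht : SN P lo hi σ t)
    (hu : SN P lo hi σ u) (h : t < u) : ph P σ σ' t < ph P σ σ' u := by
  rcases kinds (σ' := σ') ht with ⟨a1, a2⟩ | ⟨a1, a2, a3⟩ | ⟨a1, a2, v, a3, a4, a5, a6, a7⟩ <;>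
  rcases kinds (σ' := σ') hu with ⟨b1, b2⟩ | ⟨b1, b2, b3⟩ | ⟨b1, b2, w, b3, b4, b5, b6, b7⟩
  · rw [a2, b2]; exact h
  · have := (hc.lt t t a1 a1 ht.h1 ht.h2 ht.h1 ht.h2).mp (by linarith)
    rw [a2, b3]; linarith
  · have := (hc.lt t w a1 b3 ht.h1 ht.h2 b4 b5).mp (by linarith)
    rw [a2, b7]; linarith
  · have := (hc.gt u u b1 b1 hu.h1 hu.h2 hu.h1 hu.h2).mp (by linarith)
    rw [a3, b2]; linarith
  · linarith
  · have := (hc.lt w w b3 b3 b4 b5 b4 b5).mp (by linarith)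
    rw [a3, b7]; linarith
  · have := (hc.gt v u a3 b1 a4 a5 hu.h1 hu.h2).mp (by linarith)
    rw [a7, b2]; linarith
  · have := (hc.gt v v a3 a3 a4 a5 a4 a5).mp (by linarith)
    rw [a7, b3]; linarith
  · rw [a7, b7]; linarith

theorem ph_V {lo hi σ σ' : ℝ} (hc : Cell P lo hi σ σ') {t : ℝ} (ht : SN P lo hi σ t)
    (hl : lo ≤ ph P σ σ' t) (hh : ph P σ σ' t ≤ hi) (h : V P (ph P σ σ' t)) : V P t := by
  rcases kinds (σ' := σ') ht with ⟨a1, a2⟩ | ⟨a1, a2, a3⟩ | ⟨a1, a2, v, a3, a4, a5, a6, a7⟩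
  · exact a1
  · exfalso
    have := (hc.eq _ _ h h hl hh hl hh).mpr (by rw [a3]; ring)
    apply a1
    rwa [show t = ph P σ σ' t by linarith]
  · exfalso
    have := (hc.eq _ _ h a3 hl hh a4 a5).mpr (by rw [a7]; ring)
    apply a1
    rwa [show t = ph P σ σ' t by linarith]

theorem ph_of_V {σ σ' t : ℝ} (h : V P t) : ph P σ σ' t = t := by
  unfold ph; rw [if_pos h]

theorem ph_mirror {lo hi σ σ' : ℝ} (hc : Cell P lo hi σ σ') {t : ℝ} (ht : SN P lo hi σ t) :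
    ph P σ σ' (σ - t) = σ' - ph P σ σ' t := by
  rcases kinds (σ' := σ') ht with ⟨a1, a2⟩ | ⟨a1, a2, a3⟩ | ⟨a1, a2, v, a3, a4, a5, a6, a7⟩
  · rw [a2]
    by_cases h1 : V P (σ - t)
    · rw [ph_of_V h1]
      have := (hc.eq _ _ a1 h1 ht.h1 ht.h2 ht.h3 ht.h4).mp (by ring)
      linarith
    · have h2 : 2 * (σ - t) ≠ σ := by
        intro h2
        apply h1
        rwa [show σ - t = t by linarith]
      unfold ph
      rw [if_neg h1, if_neg h2]; ring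
  · rw [show σ - t = t by linarith, a3]; ring
  · rw [a7, show σ - t = v by linarith, ph_of_V a3]; ring

theorem ph_inv {lo hi σ σ' : ℝ} (hc : Cell P lo hi σ σ') {t : ℝ} (ht : SN P lo hi σ t)
    (hl : lo ≤ ph P σ σ' t) (hh : ph P σ σ' t ≤ hi) : ph P σ' σ (ph P σ σ' t) = t := by
  by_cases h1 : V P t
  · rw [ph_of_V h1, ph_of_V h1]
  have h2 : ¬ V P (ph P σ σ' t) := fun h => h1 (ph_V hc ht hl hh h)
  rcases kinds (σ' := σ') ht with ⟨a1, a2⟩ | ⟨a1, a2, a3⟩ | ⟨a1, a2, v, a3, a4, a5, a6, a7⟩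
  · exact absurd a1 h1
  · rw [ph_mid h2 (by rw [a3]; ring), a3]; linarith
  · have h3 : 2 * ph P σ σ' t ≠ σ' := by
      intro h3
      have := (hc.eq _ _ a3 a3 a4 a5 a4 a5).mpr (by linarith)
      apply a2; linarith
    rw [ph_far h2 h3, a7]; linarith

theorem ph_SN {lo hi σ σ' : ℝ} {t : ℝ} (ht : SN P lo hi σ t)
    (hl : lo ≤ ph P σ σ' t) (hh : ph P σ σ' t ≤ hi) (hl' : lo ≤ σ' - ph P σ σ' t)
    (hh' : σ' - ph P σ σ' t ≤ hi) : SN P lo hi σ' (ph P σ σ' t) := by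
  refine ⟨hl, hh, hl', hh', ?_⟩
  rcases kinds (σ' := σ') ht with ⟨a1, a2⟩ | ⟨a1, a2, a3⟩ | ⟨a1, a2, v, a3, a4, a5, a6, a7⟩
  · left; rwa [a2]
  · right; right; rw [a3]; ring
  · right; left; rw [a7]; rwa [show σ' - (σ' - v) = v by ring]

end Q137.YT
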