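import Pool.Agent.Q137.YT.Rep

/-!
# The upper bound: at most `51 n³` types of valid three-leaf gluings
-/

set_option autoImplicit false

namespace Q137.YT

open Pool.Agent.H586R2.AF Real

variable {P : List (ℝ × ℝ)}

/-- a vertex with a reflex angle is folded onto a vertex, or is a leaf -/
theorem mirror_V (hP : IsPolygon P) (H : Y P) (hv : H.Valid) {k : ℤ} {m : ℝ}
    (hm : (m : Bd P) ∈ H.cls (s P k : Bd P)) (h1 : m < s P k + per P) (h2 : s P k < m + per P)
    (hk : π < al P k) : m = s P k ∨ ∃ l, s P l = m ∧ al P k + al P l ≤ 2 * π := by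
  by_cases he : m = s P k
  · exact Or.inl he
  right
  have hne : (s P k : Bd P) ≠ (m : Bd P) := fun h => he (coe_inj hP h h2 h1).symm
  have h3 := pair_angle hP H hv hne hm
  rw [angle_V hP] at h3
  by_cases hV : V P m
  · obtain ⟨l, hl⟩ := hV
    refine ⟨l, hl, ?_⟩
    rw [← hl, angle_V hP] at h3
    exact h3
  · rw [angle_notV hP hV] at h3
    linarith

open Classical in
/-- a reflex vertex strictly between `i` and `j`, if there is one -/
noncomputable def kap (P : List (ℝ × ℝ)) (i j : ℤ) : ℤ :=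
  if h : ∃ k, i < k ∧ k < j ∧ π < al P k then h.choose else 0

theorem kap_spec {i j : ℤ} (h : ∃ k, i < k ∧ k < j ∧ π < al P k) :
    i < kap P i j ∧ kap P i j < j ∧ π < al P (kap P i j) := by
  unfold kap
  rw [dif_pos h]
  exact h.choose_spec

/-- codes of the first kind -/
def R1 (G : Y P) (c : ℤ × ℤ × ℤ × ℤ) : Prop :=
  ∃ r, Rep G c.2.1 (c.2.1 + c.2.2.1) r ∧
    ((c.1 = 0 ∧ r = s P (c.2.1 + c.2.2.2)) ∨
     (c.1 = 1 ∧ r = s P (kap P c.2.1 (c.2.1 + c.2.2.1)) + s P (c.2.1 + c.2.2.2) - s P c.2.1) ∨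
     (c.1 = 2 ∧ r = s P (kap P c.2.1 (c.2.1 + c.2.2.1)) + s P (c.2.1 + c.2.2.2) -
        s P (c.2.1 + c.2.2.1)))

theorem R1_same {G G' : Y P} {c : ℤ × ℤ × ℤ × ℤ} (h : R1 G c) (h' : R1 G' c) :
    SameType G G' := by
  obtain ⟨r, hr, h⟩ := h
  obtain ⟨r', hr', h'⟩ := h'
  have e : r = r' := by
    rcases h with ⟨h1, h2⟩ | ⟨h1, h2⟩ | ⟨h1, h2⟩ <;> rcases h' with ⟨h3, h4⟩ | ⟨h3, h4⟩ | ⟨h3, h4⟩ <;>
    first | exact h2.trans h4.symm | (rw [h1] at h3; exact absurd h3 (by decide))
  subst e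
  exact sameType_of_glued ((hr.eq hr.h1 hr.h2 hr.h3).trans (hr'.eq hr.h1 hr.h2 hr.h3).symm)

/-- the target of the first kind of codes -/
noncomputable def T1 (n : ℕ) : Finset (ℤ × ℤ × ℤ × ℤ) :=
  Finset.Ico 0 3 ×ˢ Finset.Ico 0 (n : ℤ) ×ˢ Finset.Ico 0 (n : ℤ) ×ˢ Finset.Ico 0 (n : ℤ)

theorem T1_card (n : ℕ) : (T1 n).card = 3 * n ^ 3 := by
  unfold T1
  simp only [Finset.card_product, Int.card_Ico]
  simp
  ring

theorem R1_of (hP : IsPolygon P) {G : Y P} {i j k : ℤ} {r : ℝ} (h : Rep G i j r) {t : ℤ}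
    (ht : 0 ≤ t) (ht' : t < 3) (hk : i < k) (hk' : k < j)
    (hr : (t = 0 ∧ r = s P k) ∨ (t = 1 ∧ r = s P (kap P i j) + s P k - s P i) ∨
      (t = 2 ∧ r = s P (kap P i j) + s P k - s P j)) : ∃ c ∈ T1 P.length, R1 G c := by
  obtain ⟨h1, h2⟩ := ij hP h
  have h3 := h.i0
  have h4 := h.i1
  refine ⟨(t, i, j - i, k - i), ?_, r, ?_, ?_⟩
  · unfold T1
    simp only [Finset.mem_product, Finset.mem_Ico]
    refine ⟨⟨ht, ht'⟩, ⟨h3, h4⟩, ⟨by omega, by omega⟩, ⟨by omega, by omega⟩⟩
  · show Rep G i (i + (j - i)) r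
    rw [add_sub_cancel]; exact h
  · show (t = 0 ∧ r = s P (i + (k - i))) ∨
     (t = 1 ∧ r = s P (kap P i (i + (j - i))) + s P (i + (k - i)) - s P i) ∨
     (t = 2 ∧ r = s P (kap P i (i + (j - i))) + s P (i + (k - i)) - s P (i + (j - i)))
    rw [add_sub_cancel, add_sub_cancel]
    exact hr

/-- a valid gluing with a reflex vertex on the two arcs at `r` has a code of the first kind -/
theorem R1_reflex (hP : IsPolygon P) {G : Y P} (hv : G.Valid) {i j : ℤ} {r : ℝ} (h : Rep G i j r)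
    (hr : ¬ V P r) (hk : ∃ k, i < k ∧ k < j ∧ π < al P k) : ∃ c ∈ T1 P.length, R1 G c := by
  obtain ⟨k1, k2, k3⟩ := kap_spec hk
  set κ := kap P i j with hκ
  set H : Y P := ⟨s P i, r, s P j, h.h1, h.h2, h.h3⟩ with hH
  have hHv : H.Valid := (valid_congr (h.eq h.h1 h.h2 h.h3)).mp hv
  have hs := s_mono hP
  have a1 := h.h1
  have a2 := h.h2
  have a3 := h.h3
  have b1 : s P i < s P κ := hs k1
  have b2 : s P κ < s P j := hs k2
  rcases lt_trichotomy (s P κ) r with h1 | h1 | h1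
  · have hm : ((s P i + r - s P κ : ℝ) : Bd P) ∈ H.cls (s P κ : Bd P) := by
      rw [cls_arc hP H (show H.a < s P κ from b1) (show s P κ < H.b from h1)]
      exact Or.inr rfl
    have key : ∃ l, s P l = s P i + r - s P κ := by
      rcases mirror_V hP H hHv hm (by linarith) (by linarith) k3 with h2 | ⟨l, h2, -⟩
      · exact ⟨κ, h2.symm⟩
      · exact ⟨l, h2⟩
    obtain ⟨l, hl⟩ := key
    have c1 : i < l := hs.lt_iff_lt.mp (by rw [hl]; linarith)
    have c2 : l < j := hs.lt_iff_lt.mp (by rw [hl]; linarith)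
    exact R1_of hP h (t := 1) (by norm_num) (by norm_num) c1 c2
      (Or.inr (Or.inl ⟨rfl, by rw [hl]; ring⟩))
  · exact absurd ⟨κ, h1⟩ hr
  · have hm : ((r + s P j - s P κ : ℝ) : Bd P) ∈ H.cls (s P κ : Bd P) := by
      rw [cls_arc2 hP H (show H.b < s P κ from h1) (show s P κ < H.c from b2)]
      exact Or.inr rfl
    have key : ∃ l, s P l = r + s P j - s P κ := by
      rcases mirror_V hP H hHv hm (by linarith) (by linarith) k3 with h2 | ⟨l, h2, -⟩
      · exact ⟨κ, h2.symm⟩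
      · exact ⟨l, h2⟩
    obtain ⟨l, hl⟩ := key
    have c1 : i < l := hs.lt_iff_lt.mp (by rw [hl]; linarith)
    have c2 : l < j := hs.lt_iff_lt.mp (by rw [hl]; linarith)
    exact R1_of hP h (t := 2) (by norm_num) (by norm_num) c1 c2
      (Or.inr (Or.inr ⟨rfl, by rw [hl]; ring⟩))

/-- the turning on the third arc is more than `-π` -/
theorem third_arc (hP : IsPolygon P) {G : Y P} (hv : G.Valid) {i j : ℤ} {r : ℝ} (h : Rep G i j r) :
    -π < ∑ k ∈ Finset.Ioo j (i + P.length), tau P k := by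
  set H : Y P := ⟨s P i, r, s P j, h.h1, h.h2, h.h3⟩ with hH
  have hHv : H.Valid := (valid_congr (h.eq h.h1 h.h2 h.h3)).mp hv
  have hs := s_mono hP
  have a1 := h.h1
  have a2 := h.h2
  have a3 := h.h3
  apply fold_sum hP _ (s P j + (s P i + per P))
  intro k hk
  rw [Finset.mem_Ioo] at hk
  have b1 : s P j < s P k := hs hk.1
  have b2 : s P k < s P i + per P := by rw [← s_add hP]; exact hs hk.2
  rcases le_or_gt (al P k) π with h1 | h1
  · right; unfold tau; linarith
  left
  have hm : ((s P j + (s P i + per P) - s P k : ℝ) : Bd P) ∈ H.cls (s P k : Bd P) := by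
    rw [cls_arc3 hP H (show H.c < s P k from b1) (show s P k < H.a + per P from b2)]
    exact Or.inr rfl
  rcases mirror_V hP H hHv hm (by linarith) (by linarith) h1 with h2 | ⟨l, h2, h3⟩
  · exact ⟨k, Finset.mem_Ioo.mpr hk, h2.symm, Or.inl rfl⟩
  · refine ⟨l, Finset.mem_Ioo.mpr ⟨hs.lt_iff_lt.mp (by rw [h2]; linarith), hs.lt_iff_lt.mp ?_⟩, h2,
      Or.inr (by unfold tau; linarith)⟩
    rw [h2, s_add hP]; linarith

/-- heavy vertices: turning at least `π / 2` -/
def Hv (P : List (ℝ × ℝ)) (k : ℤ) : Prop := π / 2 ≤ tau P k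

open Classical in
/-- number of heavy vertices strictly between `i` and `j` -/
noncomputable def hn (P : List (ℝ × ℝ)) (i j : ℤ) : ℕ := ((Finset.Ioo i j).filter (Hv P)).card

open Classical in
/-- critical positions of `r` -/
noncomputable def Crit (P : List (ℝ × ℝ)) (i j : ℤ) : Finset ℝ :=
  (Finset.Icc i j ×ˢ Finset.Icc i j).image (fun p => s P p.1 + s P p.2 - s P i) ∪
    (Finset.Icc i j ×ˢ Finset.Icc i j).image (fun p => s P p.1 + s P p.2 - s P j)

open Classical in
/-- number of critical positions before `r` -/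
noncomputable def cnt (P : List (ℝ × ℝ)) (i j : ℤ) (r : ℝ) : ℕ :=
  ((Crit P i j).filter (fun c => c < r)).card

theorem crit_card {i j : ℤ} (h : j < i + P.length) (h' : i < j) :
    (Crit P i j).card ≤ 2 * P.length ^ 2 := by
  classical
  unfold Crit
  have e : (Finset.Icc i j).card ≤ P.length := by
    rw [Int.card_Icc]; omega
  have h1 : (Finset.Icc i j ×ˢ Finset.Icc i j).card ≤ P.length ^ 2 := by
    rw [Finset.card_product, sq]
    exact Nat.mul_le_mul e e
  refine (Finset.card_union_le _ _).trans ?_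
  have h2 := (Finset.card_image_le (s := Finset.Icc i j ×ˢ Finset.Icc i j)
    (f := fun p => s P p.1 + s P p.2 - s P i))
  have h3 := (Finset.card_image_le (s := Finset.Icc i j ×ˢ Finset.Icc i j)
    (f := fun p => s P p.1 + s P p.2 - s P j))
  linarith

theorem cell_aux {i j : ℤ} {r r' : ℝ} (hc : cnt P i j r = cnt P i j r')
    (hb : r ∈ Crit P i j ↔ r' ∈ Crit P i j) (hlt : r < r') {c : ℝ} (hcc : c ∈ Crit P i j) :
    (c < r ↔ c < r') ∧ (c = r ↔ c = r') := by
  classical
  have hsub : (Crit P i j).filter (fun c => c < r) ⊆ (Crit P i j).filter (fun c => c < r') := by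
    intro x hx
    rw [Finset.mem_filter] at hx ⊢
    exact ⟨hx.1, hx.2.trans hlt⟩
  have heq := Finset.eq_of_subset_of_card_le hsub hc.ge
  have h1 : ∀ c ∈ Crit P i j, c < r ↔ c < r' := by
    intro c hcc
    constructor
    · intro h; exact h.trans hlt
    · intro h
      have : c ∈ (Crit P i j).filter (fun c => c < r') := Finset.mem_filter.mpr ⟨hcc, h⟩
      rw [← heq] at this
      exact (Finset.mem_filter.mp this).2
  refine ⟨h1 c hcc, ?_⟩
  have h2 : r ∉ Crit P i j := by
    intro h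
    exact lt_irrefl _ ((h1 r h).mpr hlt)
  constructor
  · rintro rfl; exact absurd hcc h2
  · rintro rfl; exact absurd (hb.mpr hcc) h2

theorem cell_crit {i j : ℤ} {r r' : ℝ} (hc : cnt P i j r = cnt P i j r')
    (hb : r ∈ Crit P i j ↔ r' ∈ Crit P i j) {c : ℝ} (hcc : c ∈ Crit P i j) :
    (c < r ↔ c < r') ∧ (c = r ↔ c = r') := by
  rcases lt_trichotomy r r' with h | h | h
  · exact cell_aux hc hb h hcc
  · subst h; exact ⟨Iff.rfl, Iff.rfl⟩
  · obtain ⟨h1, h2⟩ := cell_aux hc.symm hb.symm h hcc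
    exact ⟨h1.symm, h2.symm⟩

theorem mem_crit (hP : IsPolygon P) {i j : ℤ} {v w : ℝ} (hv : V P v) (hw : V P w)
    (h1 : s P i ≤ v) (h2 : v ≤ s P j) (h3 : s P i ≤ w) (h4 : w ≤ s P j) :
    v + w - s P i ∈ Crit P i j ∧ v + w - s P j ∈ Crit P i j := by
  classical
  obtain ⟨k, rfl⟩ := hv
  obtain ⟨l, rfl⟩ := hw
  have hs := s_mono hP
  have hm : (k, l) ∈ Finset.Icc i j ×ˢ Finset.Icc i j := by
    simp only [Finset.mem_product, Finset.mem_Icc]
    exact ⟨⟨hs.le_iff_le.mp h1, hs.le_iff_le.mp h2⟩, ⟨hs.le_iff_le.mp h3, hs.le_iff_le.mp h4⟩⟩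
  unfold Crit
  rw [Finset.mem_union, Finset.mem_union]
  exact ⟨Or.inl (Finset.mem_image.mpr ⟨_, hm, rfl⟩), Or.inr (Finset.mem_image.mpr ⟨_, hm, rfl⟩)⟩

theorem same_of_cell (hP : IsPolygon P) {G G' : Y P} {i j : ℤ} {r r' : ℝ} (h : Rep G i j r)
    (h' : Rep G' i j r') (hr : ¬ V P r) (hr' : ¬ V P r') (hc : cnt P i j r = cnt P i j r')
    (hb : r ∈ Crit P i j ↔ r' ∈ Crit P i j) : SameType G G' := by
  refine sameType_congr (h.eq h.h1 h.h2 h.h3) (h'.eq h'.h1 h'.h2 h'.h3) (sameType_mv hP ?_)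
  refine ⟨rfl, rfl, ⟨i, rfl⟩, ⟨j, rfl⟩, hr, hr', ⟨?_, ?_⟩, ⟨?_, ?_⟩⟩
  · intro v w hv hw h1 h2 h3 h4
    have := (cell_crit hc hb (mem_crit hP hv hw h1 h2 h3 h4).1).1
    constructor
    · intro h5
      have := this.mp (by linarith)
      show v + w < s P i + r'
      linarith
    · intro h5
      have h6 : v + w < s P i + r' := h5
      have := this.mpr (by linarith)
      show v + w < s P i + r
      linarith
  · intro v w hv hw h1 h2 h3 h4
    have := (cell_crit hc hb (mem_crit hP hv hw h1 h2 h3 h4).1).2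
    constructor
    · intro h5
      have h6 : v + w = s P i + r := h5
      have := this.mp (by linarith)
      show v + w = s P i + r'
      linarith
    · intro h5
      have h6 : v + w = s P i + r' := h5
      have := this.mpr (by linarith)
      show v + w = s P i + r
      linarith
  · intro v w hv hw h1 h2 h3 h4
    have := (cell_crit hc hb (mem_crit hP hv hw h1 h2 h3 h4).2).1
    constructor
    · intro h5
      have h6 : v + w < r + s P j := h5
      have := this.mp (by linarith)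
      show v + w < r' + s P j
      linarith
    · intro h5
      have h6 : v + w < r' + s P j := h5
      have := this.mpr (by linarith)
      show v + w < r + s P j
      linarith
  · intro v w hv hw h1 h2 h3 h4
    have := (cell_crit hc hb (mem_crit hP hv hw h1 h2 h3 h4).2).2
    constructor
    · intro h5
      have h6 : v + w = r + s P j := h5
      have := this.mp (by linarith)
      show v + w = r' + s P j
      linarith
    · intro h5
      have h6 : v + w = r' + s P j := h5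
      have := this.mpr (by linarith)
      show v + w = r + s P j
      linarith

theorem tau_add (k : ℤ) : tau P (k + P.length) = tau P k := by
  unfold tau; rw [al_add]

theorem tau_add_mul (k z : ℤ) : tau P (k + z * P.length) = tau P k := by
  unfold tau al
  rw [Int.add_mul_emod_self_right]

theorem hn_shift (i j z : ℤ) : hn P (i + z * P.length) (j + z * P.length) = hn P i j := by
  classical
  unfold hn
  refine (Finset.card_bij (fun k _ => k + z * P.length) ?_ ?_ ?_).symm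
  · intro a ha
    rw [Finset.mem_filter, Finset.mem_Ioo] at ha ⊢
    refine ⟨⟨by linarith [ha.1.1], by linarith [ha.1.2]⟩, ?_⟩
    have := ha.2
    unfold Hv at this ⊢
    rwa [tau_add_mul]
  · intro a _ b _ h; linarith
  · intro b hb
    rw [Finset.mem_filter, Finset.mem_Ioo] at hb
    refine ⟨b - z * P.length, ?_, by ring⟩
    rw [Finset.mem_filter, Finset.mem_Ioo]
    refine ⟨⟨by linarith [hb.1.1], by linarith [hb.1.2]⟩, ?_⟩
    have := hb.2
    unfold Hv at this ⊢
    rw [← tau_add_mul _ z, sub_add_cancel]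
    exact this

theorem hn_lt_left {i i' j : ℤ} (h : i < i') (hj : i' < j) (hh : Hv P i') : hn P i' j < hn P i j := by
  classical
  unfold hn
  apply Finset.card_lt_card
  rw [Finset.ssubset_iff_of_subset]
  · refine ⟨i', ?_, ?_⟩
    · rw [Finset.mem_filter, Finset.mem_Ioo]; exact ⟨⟨h, hj⟩, hh⟩
    · rw [Finset.mem_filter, Finset.mem_Ioo]; intro h1; exact lt_irrefl _ h1.1.1
  · intro x hx
    rw [Finset.mem_filter, Finset.mem_Ioo] at hx ⊢
    exact ⟨⟨h.trans hx.1.1, hx.1.2⟩, hx.2⟩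

theorem hn_lt_right {i j j' : ℤ} (h : j < j') (hj : i < j) (hh : Hv P j) : hn P i j < hn P i j' := by
  classical
  unfold hn
  apply Finset.card_lt_card
  rw [Finset.ssubset_iff_of_subset]
  · refine ⟨j, ?_, ?_⟩
    · rw [Finset.mem_filter, Finset.mem_Ioo]; exact ⟨⟨hj, h⟩, hh⟩
    · rw [Finset.mem_filter, Finset.mem_Ioo]; intro h1; exact lt_irrefl _ h1.1.2
  · intro x hx
    rw [Finset.mem_filter, Finset.mem_Ioo] at hx ⊢
    exact ⟨⟨hx.1.1, hx.1.2.trans h⟩, hx.2⟩

theorem uniq_right {i j j' : ℤ} (h1 : i < j) (h2 : i < j') (hh : Hv P j) (hh' : Hv P j')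
    (he : hn P i j = hn P i j') : j = j' := by
  rcases lt_trichotomy j j' with h | h | h
  · have := hn_lt_right h h1 hh; omega
  · exact h
  · have := hn_lt_right h h2 hh'; omega

theorem uniq_left {i i' j : ℤ} (h1 : i < j) (h2 : i' < j) (hh : Hv P i) (hh' : Hv P i')
    (he : hn P i j = hn P i' j) : i = i' := by
  rcases lt_trichotomy i i' with h | h | h
  · have := hn_lt_left h h2 hh'; omega
  · exact h
  · have := hn_lt_left h h1 hh; omega

/-- codes of the second kind -/
def R2 (G : Y P) (c : ℤ × ℤ × ℕ × ℕ × ℕ) : Prop :=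
  ∃ i j r, Rep G i j r ∧ ¬ V P r ∧
    ((c.1 = 0 ∧ c.2.1 = i ∧ Hv P j) ∨ (c.1 = 1 ∧ c.2.1 = j % P.length ∧ Hv P i)) ∧
    c.2.2.1 = hn P i j ∧ c.2.2.2.1 = cnt P i j r ∧
    ((c.2.2.2.2 = 0 ∧ r ∉ Crit P i j) ∨ (c.2.2.2.2 = 1 ∧ r ∈ Crit P i j))

theorem R2_same (hP : IsPolygon P) {G G' : Y P} {c : ℤ × ℤ × ℕ × ℕ × ℕ} (h : R2 G c)
    (h' : R2 G' c) : SameType G G' := by
  obtain ⟨i, j, r, hr, nr, h1, h2, h3, h4⟩ := h
  obtain ⟨i', j', r', hr', nr', h1', h2', h3', h4'⟩ := h'
  have a := ij hP hr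
  have a' := ij hP hr'
  have hn' := npos hP
  have hij : i = i' ∧ j = j' := by
    rcases h1 with ⟨t1, t2, t3⟩ | ⟨t1, t2, t3⟩ <;> rcases h1' with ⟨t1', t2', t3'⟩ | ⟨t1', t2', t3'⟩
    · have e : i = i' := t2.symm.trans t2'
      subst e
      exact ⟨rfl, uniq_right a.1 a'.1 t3 t3' (h2.symm.trans h2')⟩
    · rw [t1] at t1'; exact absurd t1' (by decide)
    · rw [t1] at t1'; exact absurd t1' (by decide)
    · have e : j % (P.length : ℤ) = j' % (P.length : ℤ) := t2.symm.trans t2'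
      obtain ⟨z, hz⟩ : ∃ z : ℤ, j = j' + z * P.length := by
        refine ⟨j / P.length - j' / P.length, ?_⟩
        have e1 := Int.emod_add_mul_ediv j P.length
        have e2 := Int.emod_add_mul_ediv j' P.length
        linear_combination e2 - e1 + e
      have e3 : hn P (i' + z * P.length) j = hn P i j := by
        rw [hz, hn_shift, ← h2', h2, hz]
      have e4 : Hv P (i' + z * P.length) := by
        unfold Hv at t3' ⊢
        rwa [tau_add_mul]
      have e5 := uniq_left (by rw [hz]; linarith [a'.1]) a.1 e4 t3 e3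
      have b1 := hr.i0
      have b2 := hr.i1
      have b3 := hr'.i0
      have b4 := hr'.i1
      have e6 : z = 0 := by
        have c1 : z < 1 := by
          by_contra hcon
          push Not at hcon
          nlinarith
        have c2 : -1 < z := by
          by_contra hcon
          push Not at hcon
          nlinarith
        omega
      subst e6
      constructor
      · linarith
      · linarith
  obtain ⟨rfl, rfl⟩ := hij
  refine same_of_cell hP hr hr' nr nr' (h3.symm.trans h3') ?_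
  rcases h4 with ⟨u1, u2⟩ | ⟨u1, u2⟩ <;> rcases h4' with ⟨u1', u2'⟩ | ⟨u1', u2'⟩
  · exact ⟨fun h => absurd h u2, fun h => absurd h u2'⟩
  · rw [u1] at u1'; exact absurd u1' (by decide)
  · rw [u1] at u1'; exact absurd u1' (by decide)
  · exact ⟨fun _ => u2', fun _ => u2⟩

/-- the target of the second kind of codes -/
noncomputable def T2 (n : ℕ) : Finset (ℤ × ℤ × ℕ × ℕ × ℕ) :=
  Finset.Ico 0 2 ×ˢ Finset.Ico 0 (n : ℤ) ×ˢ Finset.range 4 ×ˢ Finset.range (2 * n ^ 2 + 1) ×ˢ
    Finset.range 2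

theorem T2_card (n : ℕ) : (T2 n).card = 16 * n * (2 * n ^ 2 + 1) := by
  unfold T2
  simp only [Finset.card_product, Int.card_Ico, Finset.card_range]
  simp
  ring

theorem R2_convex (hP : IsPolygon P) {G : Y P} (hv : G.Valid) {i j : ℤ} {r : ℝ} (h : Rep G i j r)
    (hr : ¬ V P r) (hk : ∀ k, i < k → k < j → al P k ≤ π) : ∃ c ∈ T2 P.length, R2 G c := by
  classical
  set H : Y P := ⟨s P i, r, s P j, h.h1, h.h2, h.h3⟩ with hH
  have hHv : H.Valid := (valid_congr (h.eq h.h1 h.h2 h.h3)).mp hv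
  obtain ⟨b1, b2⟩ := ij hP h
  have hj := junction_angle hP H hHv
  rw [show H.a = s P i from rfl, show H.b = r from rfl, show H.c = s P j from rfl, angle_V hP,
    angle_V hP, angle_notV hP hr] at hj
  have h3 := third_arc hP hv h
  have htot := sum_turn hP i
  have hpi := Real.pi_pos
  have hsplit : ∑ k ∈ Finset.Ico i (i + P.length), (π - al P k) =
      tau P i + ∑ k ∈ Finset.Ioo i j, tau P k + (tau P j + ∑ k ∈ Finset.Ioo j (i + P.length), tau P k) := by
    have e1 : Finset.Ico i (i + P.length) = (insert i (Finset.Ioo i j)) ∪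
        (insert j (Finset.Ioo j (i + P.length))) := by
      ext x
      simp only [Finset.mem_Ico, Finset.mem_union, Finset.mem_insert, Finset.mem_Ioo]
      omega
    have e2 : Disjoint (insert i (Finset.Ioo i j)) (insert j (Finset.Ioo j (i + (P.length : ℤ)))) := by
      rw [Finset.disjoint_left]
      intro x hx hx'
      simp only [Finset.mem_insert, Finset.mem_Ioo] at hx hx'
      omega
    rw [e1, Finset.sum_union e2, Finset.sum_insert (by simp), Finset.sum_insert (by simp)]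
    rfl
  have hti : tau P i = π - al P i := rfl
  have htj : tau P j = π - al P j := rfl
  have hmid : ∑ k ∈ Finset.Ioo i j, tau P k < 2 * π := by
    rw [hsplit] at htot
    linarith
  have hh4 : hn P i j < 4 := by
    by_contra hcon
    push Not at hcon
    unfold hn at hcon
    have e1 : ∑ k ∈ (Finset.Ioo i j).filter (Hv P), tau P k ≤ ∑ k ∈ Finset.Ioo i j, tau P k := by
      apply Finset.sum_le_sum_of_subset_of_nonneg (Finset.filter_subset _ _)
      intro k hk1 _
      rw [Finset.mem_Ioo] at hk1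
      have := hk k hk1.1 hk1.2
      unfold tau; linarith
    have e2 : ((Finset.Ioo i j).filter (Hv P)).card • (π / 2) ≤
        ∑ k ∈ (Finset.Ioo i j).filter (Hv P), tau P k := by
      apply Finset.card_nsmul_le_sum
      intro k hk1
      exact (Finset.mem_filter.mp hk1).2
    rw [nsmul_eq_mul] at e2
    have e3 : (4 : ℝ) ≤ (((Finset.Ioo i j).filter (Hv P)).card : ℝ) := by exact_mod_cast hcon
    nlinarith
  have hcnt : cnt P i j r < 2 * P.length ^ 2 + 1 := by
    have := crit_card (P := P) b2 b1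
    have h5 : cnt P i j r ≤ (Crit P i j).card := Finset.card_filter_le _ _
    omega
  have hside : Hv P j ∨ Hv P i := by
    unfold Hv
    by_contra hcon
    push Not at hcon
    linarith [hcon.1, hcon.2]
  have hn' := npos hP
  obtain ⟨t, x, ht, hx, htx⟩ : ∃ t x : ℤ, t ∈ Finset.Ico (0 : ℤ) 2 ∧ x ∈ Finset.Ico (0 : ℤ) P.length ∧
      ((t = 0 ∧ x = i ∧ Hv P j) ∨ (t = 1 ∧ x = j % P.length ∧ Hv P i)) := by
    rcases hside with h6 | h6
    · exact ⟨0, i, by simp, Finset.mem_Ico.mpr ⟨h.i0, h.i1⟩, Or.inl ⟨rfl, rfl, h6⟩⟩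
    · exact ⟨1, j % P.length, by simp, Finset.mem_Ico.mpr ⟨Int.emod_nonneg _ hn'.ne',
        Int.emod_lt_of_pos _ hn'⟩, Or.inr ⟨rfl, rfl, h6⟩⟩
  obtain ⟨b, hb, hbb⟩ : ∃ b : ℕ, b ∈ Finset.range 2 ∧
      ((b = 0 ∧ r ∉ Crit P i j) ∨ (b = 1 ∧ r ∈ Crit P i j)) := by
    by_cases h7 : r ∈ Crit P i j
    · exact ⟨1, by simp, Or.inr ⟨rfl, h7⟩⟩
    · exact ⟨0, by simp, Or.inl ⟨rfl, h7⟩⟩
  refine ⟨(t, x, hn P i j, cnt P i j r, b), ?_, i, j, r, h, hr, htx, rfl, rfl, hbb⟩
  unfold T2
  rw [Finset.mem_product, Finset.mem_product, Finset.mem_product, Finset.mem_product]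
  exact ⟨ht, hx, Finset.mem_range.mpr hh4, Finset.mem_range.mpr hcnt, hb⟩

/-- every valid gluing has a code -/
theorem has_code (hP : IsPolygon P) (G : Y P) (hv : G.Valid) :
    (∃ c ∈ T1 P.length, R1 G c) ∨ ∃ c ∈ T2 P.length, R2 G c := by
  obtain ⟨i, j, r, h⟩ := exists_rep' hP G hv
  have hs := s_mono hP
  by_cases hr : V P r
  · left
    obtain ⟨k, hk⟩ := hr
    have c1 : i < k := hs.lt_iff_lt.mp (by rw [hk]; exact h.h1)
    have c2 : k < j := hs.lt_iff_lt.mp (by rw [hk]; exact h.h2)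
    exact R1_of hP h (t := 0) (by norm_num) (by norm_num) c1 c2 (Or.inl ⟨rfl, hk.symm⟩)
  by_cases hk : ∃ k, i < k ∧ k < j ∧ π < al P k
  · exact Or.inl (R1_reflex hP hv h hr hk)
  · push Not at hk
    exact Or.inr (R2_convex hP hv h hr hk)

/-- the upper bound for one polygon -/
theorem upper (hP : IsPolygon P) (S : Finset (Y P)) (h1 : ∀ G ∈ S, G.Valid)
    (h2 : ∀ G ∈ S, ∀ G' ∈ S, G ≠ G' → ¬ SameType G G') : S.card ≤ 51 * P.length ^ 3 := by
  classical
  let T : Finset ((ℤ × ℤ × ℤ × ℤ) ⊕ (ℤ × ℤ × ℕ × ℕ × ℕ)) := (T1 P.length).disjSum (T2 P.length)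
  have hex : ∀ G : Y P, ∃ c, G ∈ S → c ∈ T ∧ Sum.elim (R1 G) (R2 G) c := by
    intro G
    by_cases hG : G ∈ S
    · rcases has_code hP G (h1 G hG) with ⟨c, hc, h3⟩ | ⟨c, hc, h3⟩
      · exact ⟨Sum.inl c, fun _ => ⟨Finset.inl_mem_disjSum.mpr hc, h3⟩⟩
      · exact ⟨Sum.inr c, fun _ => ⟨Finset.inr_mem_disjSum.mpr hc, h3⟩⟩
    · exact ⟨Sum.inl (0, 0, 0, 0), fun h => absurd h hG⟩
  choose f hf using hex
  have hcard : S.card ≤ T.card := by
    apply Finset.card_le_card_of_injOn f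
    · intro G hG; exact (hf G hG).1
    · intro G hG G' hG' he
      by_contra hne
      apply h2 G hG G' hG' hne
      have a := (hf G hG).2
      have b := (hf G' hG').2
      rw [← he] at b
      rcases hc : f G with c | c
      · rw [hc] at a b; exact R1_same a b
      · rw [hc] at a b; exact R2_same hP a b
  have hT : T.card = 3 * P.length ^ 3 + 16 * P.length * (2 * P.length ^ 2 + 1) := by
    show ((T1 P.length).disjSum (T2 P.length)).card = _
    rw [Finset.card_disjSum, T1_card, T2_card]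
  have hn3 := hP.three
  have h9 : P.length ≤ P.length ^ 3 := Nat.le_self_pow (by norm_num) _
  rw [hT] at hcard
  nlinarith

end Q137.YT
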